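import Pool.Agent.Lib_helper1.XI.Defs

set_option autoImplicit false

namespace Pool.Agent.XI

open MeasureTheory Set Filter Topology

/-- zero paths descend if the velocity has negative imaginary part -/
theorem path_anti {X P : ℂ → ℂ} {J : Set ℝ} (hJ : J.OrdConnected) {z : ℝ → ℂ}
    (hz : ContinuousOn z J) (h : ∀ t ∈ J, X (z t) + (t : ℂ) * P (z t) = 0)
    (hP : ∀ t ∈ J, P (z t) ≠ 0)
    (hd : ∀ t ∈ J, ∃ x' p' : ℂ, HasDerivAt X x' (z t) ∧ HasDerivAt P p' (z t) ∧
      ((x' + (t : ℂ) * p') / P (z t)).im < 0) :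
    StrictAntiOn (fun t => (z t).im) J := by
  -- the inverse function
  have key : ∀ t₀ ∈ J, ∃ c : ℂ, c.im < 0 ∧ HasDerivWithinAt z c J t₀ := by
    intro t₀ ht₀
    obtain ⟨x', p', hx, hp, him⟩ := hd t₀ ht₀
    have hP0 := hP t₀ ht₀
    set P0 := P (z t₀) with hP0def
    have hX0 : X (z t₀) = -((t₀ : ℂ) * P0) := eq_neg_of_add_eq_zero_left (h t₀ ht₀)
    let T : ℂ → ℂ := fun w => -(X w / P w)
    set T' : ℂ := -((x' + (t₀ : ℂ) * p') / P0) with hT'def
    have hT : HasDerivAt T T' (z t₀) := by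
      have h1 := (hx.div hp hP0).neg
      have h2 : -((x' * P (z t₀) - X (z t₀) * p') / P (z t₀) ^ 2) = T' := by
        rw [hX0, hT'def, ← hP0def]
        field_simp
        ring
      rw [h2] at h1
      exact h1
    have hT'im : 0 < T'.im := by
      rw [hT'def, Complex.neg_im]
      linarith
    have hT'0 : T' ≠ 0 := by
      intro h0
      rw [h0, Complex.zero_im] at hT'im
      exact lt_irrefl _ hT'im
    have hTz : ∀ t ∈ J, T (z t) = (t : ℂ) := by
      intro t ht
      have h1 : X (z t) = -((t : ℂ) * P (z t)) := eq_neg_of_add_eq_zero_left (h t ht)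
      show -(X (z t) / P (z t)) = (t : ℂ)
      rw [h1, neg_div, neg_neg, mul_div_assoc, div_self (hP t ht), mul_one]
    refine ⟨T'⁻¹, ?_, ?_⟩
    · rw [Complex.inv_im]
      have h1 : 0 < Complex.normSq T' := Complex.normSq_pos.2 hT'0
      exact div_neg_of_neg_of_pos (by linarith) h1
    · rw [hasDerivWithinAt_iff_tendsto_slope]
      have h1 : Tendsto (slope T (z t₀)) (𝓝[≠] z t₀) (𝓝 T') := hasDerivAt_iff_tendsto_slope.1 hT
      have h2 : Tendsto z (𝓝[J \ {t₀}] t₀) (𝓝[≠] z t₀) := by
        rw [tendsto_nhdsWithin_iff]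
        refine ⟨(hz t₀ ht₀).mono_left (nhdsWithin_mono _ sdiff_subset), ?_⟩
        filter_upwards [self_mem_nhdsWithin] with t ht
        intro heq
        have heq : z t = z t₀ := heq
        have h3 := hTz t ht.1
        rw [heq, hTz t₀ ht₀] at h3
        exact ht.2 (by
          rw [mem_singleton_iff]
          exact (Complex.ofReal_injective h3).symm)
      have h3 := (h1.comp h2).inv₀ hT'0
      refine h3.congr' ?_
      filter_upwards [self_mem_nhdsWithin] with t ht
      have hne : (t : ℂ) ≠ (t₀ : ℂ) := fun heq => ht.2 (by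
        rw [mem_singleton_iff]
        exact Complex.ofReal_injective heq)
      show (slope T (z t₀) (z t))⁻¹ = slope z t₀ t
      rw [slope_def_field, slope_def_module, hTz t ht.1, hTz t₀ ht₀, inv_div, Complex.real_smul]
      push_cast
      rw [div_eq_inv_mul]
  have himd : ∀ t ∈ J, ∃ c : ℝ, c < 0 ∧ HasDerivWithinAt (fun t => (z t).im) c J t := by
    intro t ht
    obtain ⟨c, hc, hcz⟩ := key t ht
    exact ⟨c.im, hc, Complex.imCLM.hasFDerivAt.comp_hasDerivWithinAt t hcz⟩
  refine strictAntiOn_of_deriv_neg hJ.convex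
    (fun t ht => ((himd t ht).choose_spec.2).continuousWithinAt) ?_
  intro t ht
  obtain ⟨c, hc, hcz⟩ := himd t (interior_subset ht)
  rw [(hcz.hasDerivAt (mem_interior_iff_mem_nhds.1 ht)).deriv]
  exact hc

end Pool.Agent.XI
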