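import Pool.Agent.Lib_helper1.XI.Defs

set_option autoImplicit false

namespace Pool.Agent.XI

open MeasureTheory Set Filter Topology

theorem GG_even (a b : ℝ) (z : ℂ) : GG a b (-z) = GG a b z := by
  unfold GG
  congr 1
  refine setIntegral_congr_fun measurableSet_Ioi fun u _ => ?_
  have h1 : 2 * -z * (u : ℂ) = -(2 * z * (u : ℂ)) := by ring
  simp only [h1, Complex.cos_neg]

theorem PhiN_even (n : ℕ) (z : ℂ) : PhiN n (-z) = PhiN n z := by
  unfold PhiN
  rw [neg_div, GG_even, GG_even]

theorem XiN_even (k : ℕ) (z : ℂ) : XiN k (-z) = XiN k z := by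
  unfold XiN
  exact Finset.sum_congr rfl fun n _ => PhiN_even n z

end Pool.Agent.XI
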