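import Pool.Agent.Lib_helper1.XI.Defs
set_option autoImplicit false

namespace Pool.Agent.XI

open MeasureTheory Set Filter Topology

theorem EE_deriv (a c u : ℝ) :
    HasDerivAt (EE a c) (c * EE a c u - 2 * a * EE a (c + 2) u) u := by
  have h1 : HasDerivAt (fun u : ℝ => c * u - a * Real.exp (2 * u))
      (c - a * (Real.exp (2 * u) * 2)) u := by
    have h2 : HasDerivAt (fun u : ℝ => c * u) c u := by
      simpa using (hasDerivAt_id u).const_mul c
    have h3 : HasDerivAt (fun u : ℝ => Real.exp (2 * u)) (Real.exp (2 * u) * 2) u := by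
      have h4 : HasDerivAt (fun u : ℝ => 2 * u) 2 u := by
        simpa using (hasDerivAt_id u).const_mul 2
      exact h4.exp
    exact h2.sub (h3.const_mul a)
  have h5 := h1.exp
  have e : EE a c = fun u : ℝ => Real.exp (c * u - a * Real.exp (2 * u)) := rfl
  rw [e]
  convert h5 using 1
  have h6 : EE a (c + 2) u = Real.exp (c * u - a * Real.exp (2 * u)) * Real.exp (2 * u) := by
    rw [EE, ← Real.exp_add]; congr 1; ring
  rw [h6]
  ring

theorem EE_cont (a c : ℝ) : Continuous (EE a c) := by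
  unfold EE
  fun_prop

/-- decay in both directions -/
theorem EE_bound {a c : ℝ} (ha : 0 < a) (hc : 1 ≤ c) :
    ∃ C : ℝ, 0 ≤ C ∧ ∀ u : ℝ, EE a c u ≤ C * Real.exp (-|u|) := by
  refine ⟨Real.exp ((c + 1) ^ 2 / (8 * a)), (Real.exp_pos _).le, fun u => ?_⟩
  rw [EE, ← Real.exp_add]
  refine Real.exp_le_exp.2 ?_
  have h0 : 0 ≤ (c + 1) ^ 2 / (8 * a) := by positivity
  have h1 : 0 ≤ a * Real.exp (2 * u) := by positivity
  rcases le_total u 0 with h | h
  · rw [abs_of_nonpos h]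
    nlinarith
  · rw [abs_of_nonneg h]
    have h2 : (2 * u) ^ 2 / 2 ≤ Real.exp (2 * u) := by
      have := Real.quadratic_le_exp_of_nonneg (x := 2 * u) (by linarith)
      linarith
    have h3 : a * ((2 * u) ^ 2 / 2) ≤ a * Real.exp (2 * u) := mul_le_mul_of_nonneg_left h2 ha.le
    have h4 : (c + 1) * u - 2 * a * u ^ 2 ≤ (c + 1) ^ 2 / (8 * a) := by
      rw [le_div_iff₀ (by positivity)]
      nlinarith [sq_nonneg ((c + 1) - 4 * a * u)]
    nlinarith

theorem ph_deriv (a u : ℝ) : HasDerivAt (ph a) (ph1 a u) u ∧ HasDerivAt (ph1 a) (ph2 a u) u ∧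
    HasDerivAt (ph2 a) (ph3 a u) u := by
  have h5 := EE_deriv a (5 / 2) u
  have h9 := EE_deriv a (9 / 2) u
  have h13 := EE_deriv a (13 / 2) u
  have h17 := EE_deriv a (17 / 2) u
  rw [show (5:ℝ) / 2 + 2 = 9 / 2 by norm_num] at h5
  rw [show (9:ℝ) / 2 + 2 = 13 / 2 by norm_num] at h9
  rw [show (13:ℝ) / 2 + 2 = 17 / 2 by norm_num] at h13
  rw [show (17:ℝ) / 2 + 2 = 21 / 2 by norm_num] at h17
  refine ⟨?_, ?_, ?_⟩
  · have h := (h9.const_mul (2 * a ^ 2)).sub (h5.const_mul (3 * a))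
    refine HasDerivAt.congr_deriv (f := ph a) h ?_
    rw [ph1]; ring
  · have h := ((h13.const_mul (-4 * a ^ 3)).add (h9.const_mul (15 * a ^ 2))).sub
      (h5.const_mul (15 / 2 * a))
    refine HasDerivAt.congr_deriv (f := ph1 a) h ?_
    rw [ph2]; ring
  · have h := (((h17.const_mul (8 * a ^ 4)).sub (h13.const_mul (56 * a ^ 3))).add
      (h9.const_mul (165 / 2 * a ^ 2))).sub (h5.const_mul (75 / 4 * a))
    refine HasDerivAt.congr_deriv (f := ph2 a) h ?_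
    rw [ph3]; ring

theorem ph_cont (a : ℝ) : Continuous (ph a) ∧ Continuous (ph1 a) ∧ Continuous (ph2 a) ∧
    Continuous (ph3 a) := by
  have h5 := EE_cont a (5 / 2)
  have h9 := EE_cont a (9 / 2)
  have h13 := EE_cont a (13 / 2)
  have h17 := EE_cont a (17 / 2)
  have h21 := EE_cont a (21 / 2)
  refine ⟨?_, ?_, ?_, ?_⟩
  · unfold ph; fun_prop
  · unfold ph1; fun_prop
  · unfold ph2; fun_prop
  · unfold ph3; fun_prop

theorem a1_abs {a c : ℝ} {C u : ℝ} (h : EE a c u ≤ C * Real.exp (-|u|)) (k : ℝ) :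
    |k * EE a c u| ≤ |k| * C * Real.exp (-|u|) := by
  rw [abs_mul, abs_of_pos (show 0 < EE a c u from Real.exp_pos _), mul_assoc]
  exact mul_le_mul_of_nonneg_left h (abs_nonneg k)

theorem ph_bound {a : ℝ} (ha : 0 < a) : ∃ C : ℝ, 0 ≤ C ∧ ∀ u : ℝ,
    |ph a u| ≤ C * Real.exp (-|u|) ∧ |ph1 a u| ≤ C * Real.exp (-|u|) ∧
    |ph2 a u| ≤ C * Real.exp (-|u|) ∧ |ph3 a u| ≤ C * Real.exp (-|u|) := by
  obtain ⟨C5, hC5, h5⟩ := EE_bound (c := 5 / 2) ha (by norm_num)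
  obtain ⟨C9, hC9, h9⟩ := EE_bound (c := 9 / 2) ha (by norm_num)
  obtain ⟨C13, hC13, h13⟩ := EE_bound (c := 13 / 2) ha (by norm_num)
  obtain ⟨C17, hC17, h17⟩ := EE_bound (c := 17 / 2) ha (by norm_num)
  obtain ⟨C21, hC21, h21⟩ := EE_bound (c := 21 / 2) ha (by norm_num)
  obtain ⟨C0, hC0⟩ : ∃ C0 : ℝ, C0 = |2 * a ^ 2| * C9 + |3 * a| * C5 := ⟨_, rfl⟩
  obtain ⟨C1, hC1⟩ : ∃ C1 : ℝ, C1 = |-4 * a ^ 3| * C13 + |15 * a ^ 2| * C9 + |15 / 2 * a| * C5 :=
    ⟨_, rfl⟩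
  obtain ⟨C2, hC2⟩ : ∃ C2 : ℝ, C2 = |8 * a ^ 4| * C17 + |56 * a ^ 3| * C13 +
    |165 / 2 * a ^ 2| * C9 + |75 / 4 * a| * C5 := ⟨_, rfl⟩
  obtain ⟨C3, hC3⟩ : ∃ C3 : ℝ, C3 = |-16 * a ^ 5| * C21 + |180 * a ^ 4| * C17 +
    |529 * a ^ 3| * C13 + |1635 / 4 * a ^ 2| * C9 + |375 / 8 * a| * C5 := ⟨_, rfl⟩
  have p0 : 0 ≤ C0 := by rw [hC0]; positivity
  have p1 : 0 ≤ C1 := by rw [hC1]; positivity
  have p2 : 0 ≤ C2 := by rw [hC2]; positivity
  have p3 : 0 ≤ C3 := by rw [hC3]; positivity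
  refine ⟨C0 + C1 + C2 + C3, by linarith, fun u => ?_⟩
  have hE : 0 < Real.exp (-|u|) := Real.exp_pos _
  refine ⟨?_, ?_, ?_, ?_⟩
  · have q : |ph a u| ≤ C0 * Real.exp (-|u|) := by
      rw [ph, hC0, add_mul]
      exact (abs_sub _ _).trans (add_le_add (a1_abs (h9 u) _) (a1_abs (h5 u) _))
    nlinarith [mul_nonneg p1 hE.le, mul_nonneg p2 hE.le, mul_nonneg p3 hE.le]
  · have q : |ph1 a u| ≤ C1 * Real.exp (-|u|) := by
      rw [ph1, hC1, add_mul, add_mul]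
      exact (abs_sub _ _).trans (add_le_add ((abs_add_le _ _).trans
        (add_le_add (a1_abs (h13 u) _) (a1_abs (h9 u) _))) (a1_abs (h5 u) _))
    nlinarith [mul_nonneg p0 hE.le, mul_nonneg p2 hE.le, mul_nonneg p3 hE.le]
  · have q : |ph2 a u| ≤ C2 * Real.exp (-|u|) := by
      rw [ph2, hC2, add_mul, add_mul, add_mul]
      exact (abs_sub _ _).trans (add_le_add ((abs_add_le _ _).trans
        (add_le_add ((abs_sub _ _).trans (add_le_add (a1_abs (h17 u) _) (a1_abs (h13 u) _)))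
          (a1_abs (h9 u) _))) (a1_abs (h5 u) _))
    nlinarith [mul_nonneg p1 hE.le, mul_nonneg p0 hE.le, mul_nonneg p3 hE.le]
  · have q : |ph3 a u| ≤ C3 * Real.exp (-|u|) := by
      rw [ph3, hC3, add_mul, add_mul, add_mul, add_mul]
      exact (abs_sub _ _).trans (add_le_add ((abs_add_le _ _).trans
        (add_le_add ((abs_sub _ _).trans (add_le_add ((abs_add_le _ _).trans
          (add_le_add (a1_abs (h21 u) _) (a1_abs (h17 u) _))) (a1_abs (h13 u) _)))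
          (a1_abs (h9 u) _))) (a1_abs (h5 u) _))
    nlinarith [mul_nonneg p1 hE.le, mul_nonneg p2 hE.le, mul_nonneg p0 hE.le]

end Pool.Agent.XI
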