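import Pool.Agent.Lib_helper1.XI.Defs
set_option autoImplicit false

namespace Pool.Agent.XI

open MeasureTheory Set Filter Topology

theorem b1_norm (z : ℂ) (u : ℝ) : ‖Complex.exp (Complex.I * z * u)‖ = Real.exp (-(u * z.im)) := by
  rw [Complex.norm_exp]
  congr 1
  simp [Complex.mul_re, mul_comm]

theorem b1_norm_le {z : ℂ} (hz : 0 ≤ z.im) {u : ℝ} (hu : 0 ≤ u) :
    ‖Complex.exp (Complex.I * z * u)‖ ≤ 1 := by
  rw [b1_norm, Real.exp_le_one_iff]
  have := mul_nonneg hu hz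
  linarith

theorem b1_bd {f : ℝ → ℝ} {C : ℝ} (hC : ∀ u, 0 ≤ u → |f u| ≤ C * Real.exp (-u)) {z : ℂ}
    (hz : 0 ≤ z.im) {u : ℝ} (hu : 0 ≤ u) :
    ‖Complex.exp (Complex.I * z * u) * (f u : ℂ)‖ ≤ C * Real.exp (-u) := by
  rw [norm_mul, Complex.norm_real, Real.norm_eq_abs]
  calc ‖Complex.exp (Complex.I * z * u)‖ * |f u| ≤ 1 * |f u| :=
        mul_le_mul_of_nonneg_right (b1_norm_le hz hu) (abs_nonneg _)
    _ = |f u| := one_mul _
    _ ≤ _ := hC u hu

theorem b1_cont {f : ℝ → ℝ} (hf : Continuous f) (z : ℂ) :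
    Continuous (fun u : ℝ => Complex.exp (Complex.I * z * u) * (f u : ℂ)) := by
  have : Continuous (fun u : ℝ => Complex.exp (Complex.I * z * u)) := by fun_prop
  exact this.mul (Complex.continuous_ofReal.comp hf)

theorem b1_int {f : ℝ → ℝ} {C : ℝ} (hf : Continuous f)
    (hC : ∀ u, 0 ≤ u → |f u| ≤ C * Real.exp (-u)) {z : ℂ} (hz : 0 ≤ z.im) :
    IntegrableOn (fun u : ℝ => Complex.exp (Complex.I * z * u) * (f u : ℂ)) (Ioi 0) := by
  refine Integrable.mono' ((integrableOn_exp_neg_Ioi 0).const_mul C)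
    (b1_cont hf z).aestronglyMeasurable ?_
  refine (ae_restrict_iff' measurableSet_Ioi).2 (ae_of_all _ fun u hu => ?_)
  exact b1_bd hC hz (le_of_lt hu)

theorem b1_step {f f' : ℝ → ℝ} {C : ℝ} (h : ∀ u, HasDerivAt f (f' u) u) (hf' : Continuous f')
    (hC : ∀ u, 0 ≤ u → |f u| ≤ C * Real.exp (-u)) (hC' : ∀ u, 0 ≤ u → |f' u| ≤ C * Real.exp (-u))
    {z : ℂ} (hz : 0 ≤ z.im) :
    Complex.I * z * (∫ u in Ioi (0 : ℝ), Complex.exp (Complex.I * z * u) * (f u : ℂ)) =
      -(f 0 : ℂ) - ∫ u in Ioi (0 : ℝ), Complex.exp (Complex.I * z * u) * (f' u : ℂ) := by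
  have hf : Continuous f := continuous_iff_continuousAt.2 fun u => (h u).continuousAt
  have i1 := b1_int hf hC hz
  have i2 := b1_int hf' hC' hz
  have hd : ∀ u ∈ Ici (0 : ℝ), HasDerivAt
      (fun u : ℝ => Complex.exp (Complex.I * z * u) * (f u : ℂ))
      (Complex.I * z * (Complex.exp (Complex.I * z * u) * (f u : ℂ)) +
        Complex.exp (Complex.I * z * u) * (f' u : ℂ)) u := by
    intro u _
    have e1 : HasDerivAt (fun u : ℝ => Complex.I * z * (u : ℂ)) (Complex.I * z) u := by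
      have := (Complex.ofRealCLM.hasDerivAt (x := u)).const_mul (Complex.I * z)
      simpa using this
    have e2 := e1.cexp
    have e3 : HasDerivAt (fun u : ℝ => (f u : ℂ)) (f' u : ℂ) u := (h u).ofReal_comp
    have e4 := e2.mul e3
    refine e4.congr_deriv ?_
    ring
  have ht : Tendsto (fun u : ℝ => Complex.exp (Complex.I * z * u) * (f u : ℂ)) atTop (𝓝 0) := by
    have hlim : Tendsto (fun u : ℝ => C * Real.exp (-u)) atTop (𝓝 0) := by
      have := (Real.tendsto_exp_neg_atTop_nhds_zero).const_mul C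
      simpa using this
    refine squeeze_zero_norm' ?_ hlim
    filter_upwards [eventually_ge_atTop (0 : ℝ)] with u hu
    exact b1_bd hC hz hu
  have key := integral_Ioi_of_hasDerivAt_of_tendsto' hd ((i1.const_mul _).add i2) ht
  rw [integral_add (i1.const_mul _) i2, integral_const_mul] at key
  simp only [Complex.ofReal_zero, mul_zero, Complex.exp_zero, one_mul, zero_sub] at key
  rw [← key]
  ring

/-- integration by parts for a function with derivatives `f1, f2, f3` which decay like `exp (-u)` -/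
theorem parts {f0 f1 f2 f3 : ℝ → ℝ} {C : ℝ} (h0 : ∀ u, HasDerivAt f0 (f1 u) u)
    (h1 : ∀ u, HasDerivAt f1 (f2 u) u) (h2 : ∀ u, HasDerivAt f2 (f3 u) u) (h3 : Continuous f3)
    (hC : ∀ u, 0 ≤ u → |f0 u| ≤ C * Real.exp (-u) ∧ |f1 u| ≤ C * Real.exp (-u) ∧
      |f2 u| ≤ C * Real.exp (-u) ∧ |f3 u| ≤ C * Real.exp (-u))
    (e0 : f0 0 = 0) (e2 : f2 0 = 0) {z : ℂ} (hz : 0 ≤ z.im) (hz0 : z ≠ 0) :
    z ^ 2 * (∫ u in Ioi (0 : ℝ), Complex.exp (Complex.I * z * u) * (f0 u : ℂ)) =
        -(f1 0 : ℂ) - ∫ u in Ioi (0 : ℝ), Complex.exp (Complex.I * z * u) * (f2 u : ℂ) ∧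
      ‖∫ u in Ioi (0 : ℝ), Complex.exp (Complex.I * z * u) * (f2 u : ℂ)‖ ≤ C / ‖z‖ := by
  have c1 : Continuous f1 := continuous_iff_continuousAt.2 fun u => (h1 u).continuousAt
  have c2 : Continuous f2 := continuous_iff_continuousAt.2 fun u => (h2 u).continuousAt
  have s0 := b1_step h0 c1 (fun u hu => (hC u hu).1) (fun u hu => (hC u hu).2.1) hz
  have s1 := b1_step h1 c2 (fun u hu => (hC u hu).2.1) (fun u hu => (hC u hu).2.2.1) hz
  have s2 := b1_step h2 h3 (fun u hu => (hC u hu).2.2.1) (fun u hu => (hC u hu).2.2.2) hz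
  rw [e0] at s0
  rw [e2] at s2
  simp only [Complex.ofReal_zero, neg_zero, zero_sub] at s0 s2
  constructor
  · rw [← s1]
    linear_combination (-Complex.I * z) * s0 +
      z ^ 2 * (∫ u in Ioi (0 : ℝ), Complex.exp (Complex.I * z * u) * (f0 u : ℂ)) * Complex.I_sq
  · have hn : ‖∫ u in Ioi (0 : ℝ), Complex.exp (Complex.I * z * u) * (f3 u : ℂ)‖ ≤ C := by
      calc ‖∫ u in Ioi (0 : ℝ), Complex.exp (Complex.I * z * u) * (f3 u : ℂ)‖
          ≤ ∫ u in Ioi (0 : ℝ), C * Real.exp (-u) := by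
            refine norm_integral_le_of_norm_le ((integrableOn_exp_neg_Ioi 0).const_mul C) ?_
            refine (ae_restrict_iff' measurableSet_Ioi).2 (ae_of_all _ fun u hu => ?_)
            exact b1_bd (fun u hu => (hC u hu).2.2.2) hz (le_of_lt hu)
        _ = C := by rw [integral_const_mul, integral_exp_neg_Ioi_zero, mul_one]
    have hz' : 0 < ‖z‖ := norm_pos_iff.2 hz0
    rw [le_div_iff₀ hz']
    have e := congrArg norm s2
    rw [norm_neg, norm_mul, norm_mul, Complex.norm_I, one_mul] at e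
    rw [mul_comm, e]
    exact hn

theorem b1_gamma : IntegrableOn (fun u : ℝ => u * Real.exp (-u)) (Ioi 0) ∧
    ∫ u in Ioi (0 : ℝ), u * Real.exp (-u) = 1 := by
  have h1 := Real.GammaIntegral_convergent (s := 2) (by norm_num)
  have h2 := Real.Gamma_eq_integral (s := 2) (by norm_num)
  have e : ∀ u ∈ Ioi (0 : ℝ), Real.exp (-u) * u ^ ((2 : ℝ) - 1) = u * Real.exp (-u) := by
    intro u _
    rw [show (2 : ℝ) - 1 = 1 by norm_num, Real.rpow_one, mul_comm]
  rw [setIntegral_congr_fun measurableSet_Ioi e] at h2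
  refine ⟨h1.congr_fun e measurableSet_Ioi, ?_⟩
  rw [← h2]
  have h3 := Real.Gamma_nat_eq_factorial 1
  rw [Nat.factorial_one, Nat.cast_one, show (1 : ℝ) + 1 = 2 by norm_num] at h3
  exact h3

/-- the derivative of the transform is bounded -/
theorem parts_deriv {f : ℝ → ℝ} {C : ℝ} (hf : Continuous f)
    (hC : ∀ u, 0 ≤ u → |f u| ≤ C * Real.exp (-u)) {z : ℂ} (hz : 0 < z.im) :
    ∃ d : ℂ, HasDerivAt (fun z : ℂ => ∫ u in Ioi (0 : ℝ), Complex.exp (Complex.I * z * u) *
      (f u : ℂ)) d z ∧ ‖d‖ ≤ C := by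
  obtain ⟨g1, g2⟩ := b1_gamma
  have hbi : IntegrableOn (fun u : ℝ => C * (u * Real.exp (-u))) (Ioi 0) := g1.const_mul C
  have hb : ∀ u ∈ Ioi (0 : ℝ), ∀ w : ℂ, 0 ≤ w.im →
      ‖Complex.I * u * (Complex.exp (Complex.I * w * u) * (f u : ℂ))‖ ≤
        C * (u * Real.exp (-u)) := by
    intro u hu w hw
    have hu' : (0 : ℝ) ≤ u := le_of_lt hu
    rw [norm_mul, norm_mul, Complex.norm_I, one_mul, Complex.norm_real, Real.norm_eq_abs,
      abs_of_nonneg hu']
    have := mul_le_mul_of_nonneg_left (b1_bd hC hw hu') hu'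
    linarith
  have hball : ∀ w ∈ Metric.ball z z.im, 0 ≤ w.im := by
    intro w hw
    have h1 : |(w - z).im| ≤ ‖w - z‖ := Complex.abs_im_le_norm _
    have h2 : ‖w - z‖ < z.im := by rwa [mem_ball_iff_norm] at hw
    rw [Complex.sub_im] at h1
    have := (abs_lt.1 (lt_of_le_of_lt h1 h2)).1
    linarith
  have main := hasDerivAt_integral_of_dominated_loc_of_deriv_le
    (μ := volume.restrict (Ioi (0 : ℝ))) (𝕜 := ℂ)
    (F := fun (w : ℂ) (u : ℝ) => Complex.exp (Complex.I * w * u) * (f u : ℂ))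
    (F' := fun (w : ℂ) (u : ℝ) => Complex.I * u * (Complex.exp (Complex.I * w * u) * (f u : ℂ)))
    (bound := fun u : ℝ => C * (u * Real.exp (-u))) (x₀ := z)
    (Metric.ball_mem_nhds z hz)
    (Eventually.of_forall fun w => (b1_cont hf w).aestronglyMeasurable)
    (b1_int hf hC hz.le)
    (by
      have : Continuous (fun u : ℝ => Complex.I * u * (Complex.exp (Complex.I * z * u) * (f u : ℂ))) :=
        (continuous_const.mul Complex.continuous_ofReal).mul (b1_cont hf z)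
      exact this.aestronglyMeasurable)
    ((ae_restrict_iff' measurableSet_Ioi).2 (ae_of_all _ fun u hu w hw => hb u hu w (hball w hw)))
    hbi
    (ae_of_all _ fun u w _ => by
      have e1 : HasDerivAt (fun w : ℂ => Complex.I * w * (u : ℂ)) (Complex.I * u) w := by
        have := ((hasDerivAt_id w).const_mul Complex.I).mul_const (u : ℂ)
        simpa using this
      have e2 := (e1.cexp).mul_const (f u : ℂ)
      refine e2.congr_deriv ?_
      ring)
  refine ⟨_, main.2, ?_⟩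
  calc ‖∫ u in Ioi (0 : ℝ), Complex.I * u * (Complex.exp (Complex.I * z * u) * (f u : ℂ))‖
      ≤ ∫ u in Ioi (0 : ℝ), C * (u * Real.exp (-u)) := by
        refine norm_integral_le_of_norm_le hbi ?_
        exact (ae_restrict_iff' measurableSet_Ioi).2 (ae_of_all _ fun u hu => hb u hu z hz.le)
    _ = C := by rw [integral_const_mul, g2, mul_one]

end Pool.Agent.XI
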