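import Pool.Agent.Lib_helper1.XI.Defs
import Pool.Agent.Lib_helper1.XI.P.A1
import Pool.Agent.Lib_helper1.XI.P.B1
set_option autoImplicit false

namespace Pool.Agent.XI

open MeasureTheory Set Filter Topology

theorem b2_neg {f : ℝ → ℝ} {d u : ℝ} (h : HasDerivAt f d (-u)) :
    HasDerivAt (fun u => f (-u)) (-d) u := by
  have := HasDerivAt.scomp u h (hasDerivAt_neg u)
  simpa [Function.comp_def] using this

theorem b2_abs {x y B : ℝ} (hx : |x| ≤ B) (hy : |y| ≤ B) : |x - y| ≤ 2 * B ∧ |x + y| ≤ 2 * B := by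
  have h1 := abs_sub x y
  have h2 := abs_add_le x y
  constructor <;> linarith

theorem b2_data {a : ℝ} (ha : 0 < a) : ∃ C : ℝ, 0 ≤ C ∧
    (∀ u, HasDerivAt (fun u => ph a u - ph a (-u)) (ph1 a u + ph1 a (-u)) u) ∧
    (∀ u, HasDerivAt (fun u => ph1 a u + ph1 a (-u)) (ph2 a u - ph2 a (-u)) u) ∧
    (∀ u, HasDerivAt (fun u => ph2 a u - ph2 a (-u)) (ph3 a u + ph3 a (-u)) u) ∧
    Continuous (fun u => ph2 a u - ph2 a (-u)) ∧
    Continuous (fun u => ph3 a u + ph3 a (-u)) ∧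
    ∀ u, 0 ≤ u → |ph a u - ph a (-u)| ≤ C * Real.exp (-u) ∧
      |ph1 a u + ph1 a (-u)| ≤ C * Real.exp (-u) ∧
      |ph2 a u - ph2 a (-u)| ≤ C * Real.exp (-u) ∧
      |ph3 a u + ph3 a (-u)| ≤ C * Real.exp (-u) := by
  obtain ⟨C, hC0, hC⟩ := ph_bound ha
  obtain ⟨c0, c1, c2, c3⟩ := ph_cont a
  refine ⟨2 * C, by positivity, ?_, ?_, ?_, ?_, ?_, ?_⟩
  · intro u
    have h := (ph_deriv a u).1.sub (b2_neg (ph_deriv a (-u)).1)
    rwa [sub_neg_eq_add] at h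
  · intro u
    have h := (ph_deriv a u).2.1.add (b2_neg (ph_deriv a (-u)).2.1)
    rwa [← sub_eq_add_neg] at h
  · intro u
    have h := (ph_deriv a u).2.2.sub (b2_neg (ph_deriv a (-u)).2.2)
    rwa [sub_neg_eq_add] at h
  · exact c2.sub (c2.comp continuous_neg)
  · exact c3.add (c3.comp continuous_neg)
  · intro u hu
    obtain ⟨p0, p1, p2, p3⟩ := hC u
    obtain ⟨q0, q1, q2, q3⟩ := hC (-u)
    rw [abs_neg, abs_of_nonneg hu] at q0 q1 q2 q3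
    rw [abs_of_nonneg hu] at p0 p1 p2 p3
    have e : 2 * C * Real.exp (-u) = 2 * (C * Real.exp (-u)) := by ring
    rw [e]
    exact ⟨(b2_abs p0 q0).1, (b2_abs p1 q1).2, (b2_abs p2 q2).1,
      (b2_abs p3 q3).2⟩

theorem BB_eq {a : ℝ} (ha : 0 < a) {z : ℂ} (hz : 0 ≤ z.im) (hz0 : z ≠ 0) :
    z ^ 2 * BB a z = (aa a : ℂ) - 2 * KK a z := by
  obtain ⟨C, hC0, d0, d1, d2, c2, c3, hb⟩ := b2_data ha
  have h := (parts d0 d1 d2 c3 hb (by simp) (by simp) hz hz0).1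
  unfold BB KK aa
  have e : z ^ 2 * (2 * ∫ u in Ioi (0 : ℝ), Complex.exp (Complex.I * z * u) *
      ((ph a u - ph a (-u) : ℝ) : ℂ)) = 2 * (z ^ 2 * ∫ u in Ioi (0 : ℝ),
      Complex.exp (Complex.I * z * u) * ((ph a u - ph a (-u) : ℝ) : ℂ)) := by ring
  rw [e, h]
  simp only [neg_zero]
  push_cast
  ring

theorem KK_bound {a : ℝ} (ha : 0 < a) : ∃ C : ℝ, 0 ≤ C ∧
    (∀ z : ℂ, 0 ≤ z.im → z ≠ 0 → ‖KK a z‖ ≤ C / ‖z‖) ∧
    ∀ z : ℂ, 0 < z.im → ∃ d : ℂ, HasDerivAt (KK a) d z ∧ ‖d‖ ≤ C := by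
  obtain ⟨C, hC0, d0, d1, d2, c2, c3, hb⟩ := b2_data ha
  refine ⟨C, hC0, ?_, ?_⟩
  · intro z hz hz0
    exact (parts d0 d1 d2 c3 hb (by simp) (by simp) hz hz0).2
  · intro z hz
    exact parts_deriv c2 (fun u hu => (hb u hu).2.2.1) hz

end Pool.Agent.XI
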