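import Pool.Agent.Lib_helper1.XI.Defs
import Pool.Agent.Lib_helper1.XI.P.A1
set_option autoImplicit false

namespace Pool.Agent.XI

open MeasureTheory Set Filter Topology

theorem c1_cpow (y : ℝ) (w : ℂ) : ((Real.exp y : ℝ) : ℂ) ^ w = Complex.exp (y * w) := by
  rw [Complex.cpow_def_of_ne_zero (by exact_mod_cast (Real.exp_pos y).ne'), ← Complex.ofReal_log
    (Real.exp_pos y).le, Real.log_exp]

theorem c1_image : (fun u : ℝ => Real.exp (2 * u)) '' univ = Ioi 0 := by
  ext x
  rw [mem_image, mem_Ioi]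
  constructor
  · rintro ⟨u, -, rfl⟩
    exact Real.exp_pos _
  · intro hx
    refine ⟨Real.log x / 2, mem_univ _, ?_⟩
    show Real.exp (2 * (Real.log x / 2)) = x
    rw [mul_div_cancel₀ _ (two_ne_zero), Real.exp_log hx]

theorem c1_abs_int : Integrable (fun u : ℝ => Real.exp (-|u|)) := by
  have h1 : IntegrableOn (fun u : ℝ => Real.exp (-|u|)) (Ioi 0) := by
    refine (integrableOn_exp_neg_Ioi 0).congr_fun ?_ measurableSet_Ioi
    intro u hu
    show Real.exp (-u) = Real.exp (-|u|)
    rw [abs_of_pos hu]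
  have h2 : IntegrableOn (fun u : ℝ => Real.exp (-|u|)) (Iic 0) := by
    refine (integrableOn_exp_Iic 0).congr_fun ?_ measurableSet_Iic
    intro u hu
    show Real.exp u = Real.exp (-|u|)
    rw [abs_of_nonpos hu, neg_neg]
  rw [← integrableOn_univ, ← Iic_union_Ioi (a := (0 : ℝ))]
  exact h2.union h1

theorem c1_norm (a c : ℝ) (z : ℂ) (u : ℝ) :
    ‖Complex.exp (-Complex.I * z * u) * (EE a c u : ℂ)‖ = EE a (c + z.im) u := by
  rw [norm_mul, Complex.norm_exp, Complex.norm_real, Real.norm_eq_abs]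
  have h1 : (-Complex.I * z * u).re = z.im * u := by
    simp
  rw [h1, EE, EE, abs_of_pos (Real.exp_pos _), ← Real.exp_add]
  congr 1
  ring

/-- the Gamma integral in exponential form -/
theorem EE_gamma {a : ℝ} (ha : 0 < a) {c : ℝ} (hc : 1 ≤ c) {z : ℂ} (hz : 0 ≤ z.im) :
    Integrable (fun u : ℝ => Complex.exp (-Complex.I * z * u) * (EE a c u : ℂ)) ∧
    ∫ u : ℝ, Complex.exp (-Complex.I * z * u) * (EE a c u : ℂ) =
      1 / 2 * (Complex.Gamma ((c - Complex.I * z) / 2) * (a : ℂ) ^ (-(c - Complex.I * z) / 2)) := by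
  constructor
  · obtain ⟨C, hC0, hC⟩ := EE_bound ha (by linarith : 1 ≤ c + z.im)
    refine Integrable.mono' (c1_abs_int.const_mul C) ?_ ?_
    · refine Continuous.aestronglyMeasurable ?_
      have h1 := EE_cont a c
      fun_prop
    · refine Eventually.of_forall fun u => ?_
      rw [c1_norm]
      exact hC u
  · obtain ⟨s, hs⟩ : ∃ s : ℂ, s = (c - Complex.I * z) / 2 := ⟨_, rfl⟩
    have hsre : 0 < s.re := by
      have h1 : s.re = (c + z.im) / 2 := by
        have h2 : s = ((1 / 2 : ℝ) : ℂ) * (c - Complex.I * z) := by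
          rw [hs]
          push_cast
          ring
        rw [h2, Complex.re_ofReal_mul]
        simp
        ring
      rw [h1]
      linarith
    have hg := MeasureTheory.integral_image_eq_integral_abs_deriv_smul (s := univ)
      (f := fun u : ℝ => Real.exp (2 * u)) (f' := fun u : ℝ => Real.exp (2 * u) * (2 * 1))
      MeasurableSet.univ (fun u _ => ((hasDerivAt_id u).const_mul 2).exp.hasDerivWithinAt)
      (fun u _ v _ h => by
        have := Real.exp_injective h
        linarith)
      (fun v : ℝ => (v : ℂ) ^ (s - 1) * Complex.exp (-((a : ℂ) * v)))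
    rw [c1_image, Complex.integral_cpow_mul_exp_neg_mul_Ioi hsre (by simpa using ha),
      setIntegral_univ] at hg
    have h1 : ∀ u : ℝ, |Real.exp (2 * u) * (2 * 1)| • (((Real.exp (2 * u) : ℝ) : ℂ) ^ (s - 1) *
        Complex.exp (-((a : ℂ) * ((Real.exp (2 * u) : ℝ) : ℂ)))) =
        2 * (Complex.exp (-Complex.I * z * u) * (EE a c u : ℂ)) := by
      intro u
      rw [c1_cpow, abs_of_pos (by positivity), Complex.real_smul, EE, Complex.ofReal_mul,
        Complex.ofReal_exp, Complex.ofReal_exp, hs]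
      push_cast
      have e1 : Complex.exp (2 * u) * (2 * 1) * (Complex.exp (2 * u * ((c - Complex.I * z) / 2 - 1)) *
          Complex.exp (-(a * Complex.exp (2 * u)))) = 2 * (Complex.exp (2 * u) *
          Complex.exp (2 * u * ((c - Complex.I * z) / 2 - 1)) *
          Complex.exp (-(a * Complex.exp (2 * u)))) := by ring
      rw [e1, ← Complex.exp_add, ← Complex.exp_add, ← Complex.exp_add]
      congr 2
      ring
    simp only [h1] at hg
    rw [integral_const_mul] at hg
    have h2 : (a : ℂ) ^ (-(c - Complex.I * z) / 2) = (1 / (a : ℂ)) ^ s := by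
      have e1 : (-(c - Complex.I * z) / 2 : ℂ) = -s := by
        rw [hs]
        ring
      rw [e1, Complex.cpow_neg, one_div, Complex.inv_cpow]
      rw [Complex.arg_ofReal_of_nonneg ha.le]
      exact Real.pi_pos.ne
    rw [h2, ← hs]
    have h3 : ∫ u : ℝ, Complex.exp (-Complex.I * z * u) * (EE a c u : ℂ) =
        1 / 2 * (2 * ∫ u : ℝ, Complex.exp (-Complex.I * z * u) * (EE a c u : ℂ)) := by ring
    rw [h3, ← hg]
    ring

end Pool.Agent.XI
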