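import Pool.Agent.Lib_helper1.XI.Defs
import Pool.Agent.Lib_helper1.XI.P.A1
import Pool.Agent.Lib_helper1.XI.P.C1
set_option autoImplicit false

namespace Pool.Agent.XI

open MeasureTheory Set Filter Topology

theorem c2_an {n : ℕ} (hn : 1 ≤ n) : 0 < an n := by
  unfold an
  have : (0 : ℝ) < n := by exact_mod_cast hn
  positivity

theorem c2_shift (a c s u : ℝ) : Real.exp (s * u) * EE a c u = EE a (c + s) u := by
  unfold EE
  rw [← Real.exp_add]
  congr 1
  ring

theorem c2_pos (a c u : ℝ) : 0 < EE a c u := Real.exp_pos _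

theorem c2_intexp : IntegrableOn (fun u : ℝ => Real.exp (-|u|)) (Ioi 0) := by
  have h : IntegrableOn (fun u : ℝ => Real.exp (-u)) (Ioi 0) := integrableOn_exp_neg_Ioi 0
  refine h.congr_fun (fun u hu => ?_) measurableSet_Ioi
  rw [abs_of_pos hu]

/-- integrability on the half line -/
theorem c2_int {a : ℝ} (ha : 0 < a) {c : ℝ} (hc : 1 ≤ c) {g : ℝ → ℂ} (hg : Continuous g)
    {s : ℝ} (hs : 0 ≤ s) (hgb : ∀ u : ℝ, 0 < u → ‖g u‖ ≤ Real.exp (s * u)) :
    IntegrableOn (fun u : ℝ => g u * (EE a c u : ℂ)) (Ioi 0) := by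
  obtain ⟨C, hC, hb⟩ := EE_bound ha (show 1 ≤ c + s by linarith)
  refine Integrable.mono' (c2_intexp.const_mul C) ?_ ?_
  · exact (hg.mul (Complex.continuous_ofReal.comp (EE_cont a c))).aestronglyMeasurable
  · rw [ae_restrict_iff' measurableSet_Ioi]
    refine Eventually.of_forall fun u hu => ?_
    rw [norm_mul, Complex.norm_real, Real.norm_of_nonneg (c2_pos a c u).le]
    calc ‖g u‖ * EE a c u ≤ Real.exp (s * u) * EE a c u :=
          mul_le_mul_of_nonneg_right (hgb u hu) (c2_pos a c u).le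
      _ = EE a (c + s) u := c2_shift a c s u
      _ ≤ _ := hb u

/-- the same for `ph` -/
theorem c2_intph {a : ℝ} (ha : 0 < a) {g : ℝ → ℂ} (hg : Continuous g)
    {s : ℝ} (hs : 0 ≤ s) (hgb : ∀ u : ℝ, 0 < u → ‖g u‖ ≤ Real.exp (s * u)) :
    IntegrableOn (fun u : ℝ => g u * (ph a u : ℂ)) (Ioi 0) := by
  have h1 := (c2_int ha (show (1 : ℝ) ≤ 9 / 2 by norm_num) hg hs hgb).const_mul (2 * (a : ℂ) ^ 2)
  have h2 := (c2_int ha (show (1 : ℝ) ≤ 5 / 2 by norm_num) hg hs hgb).const_mul (3 * (a : ℂ))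
  refine (h1.sub h2).congr (Eventually.of_forall fun u => ?_)
  simp only [Pi.sub_apply, ph]
  push_cast
  ring

theorem c2_cos (z : ℂ) (u : ℝ) (hu : 0 < u) : ‖Complex.cos (z * u)‖ ≤ Real.exp (|z.im| * u) := by
  rw [Complex.cos]
  have h1 : ‖Complex.exp (z * u * Complex.I)‖ ≤ Real.exp (|z.im| * u) := by
    rw [Complex.norm_exp, Real.exp_le_exp]
    have : (z * u * Complex.I).re = -(z.im * u) := by simp
    rw [this]
    have := neg_abs_le z.im
    nlinarith
  have h2 : ‖Complex.exp (-(z * u) * Complex.I)‖ ≤ Real.exp (|z.im| * u) := by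
    rw [Complex.norm_exp, Real.exp_le_exp]
    have : (-(z * u) * Complex.I).re = z.im * u := by simp
    rw [this]
    have := le_abs_self z.im
    nlinarith
  rw [norm_div]
  have h3 := norm_add_le (Complex.exp (z * u * Complex.I)) (Complex.exp (-(z * u) * Complex.I))
  have h4 : ‖(2 : ℂ)‖ = 2 := by simp
  rw [h4, div_le_iff₀ (by norm_num)]
  linarith

/-- `Φ_n` by its kernel -/
theorem phi_kernel {n : ℕ} (hn : 1 ≤ n) (z : ℂ) :
    PhiN n z = 4 * ∫ u in Ioi (0 : ℝ), Complex.cos (z * u) * (ph (an n) u : ℂ) := by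
  have ha := c2_an hn
  have hg : Continuous (fun u : ℝ => Complex.cos (z * u)) := by fun_prop
  have hgb := c2_cos z
  have i1 := c2_int ha (show (1 : ℝ) ≤ 9 / 2 by norm_num) hg (abs_nonneg z.im) hgb
  have i2 := c2_int ha (show (1 : ℝ) ≤ 5 / 2 by norm_num) hg (abs_nonneg z.im) hgb
  have g : ∀ b : ℝ, GG ((n : ℝ) ^ 2 * Real.pi) b (z / 2) =
      4 * ∫ u in Ioi (0 : ℝ), Complex.cos (z * u) * (EE (an n) (2 * b) u : ℂ) := by
    intro b
    unfold GG
    congr 1
    refine setIntegral_congr_fun measurableSet_Ioi fun u _ => ?_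
    congr 2
    · ring
    · unfold EE an
      congr 2
      ring
  have e : ∫ u in Ioi (0 : ℝ), Complex.cos (z * u) * (ph (an n) u : ℂ) =
      2 * (an n : ℂ) ^ 2 * (∫ u in Ioi (0 : ℝ), Complex.cos (z * u) * (EE (an n) (9 / 2) u : ℂ)) -
      3 * (an n : ℂ) * ∫ u in Ioi (0 : ℝ), Complex.cos (z * u) * (EE (an n) (5 / 2) u : ℂ) := by
    rw [← integral_const_mul, ← integral_const_mul, ← integral_sub (i1.const_mul _)
      (i2.const_mul _)]
    refine setIntegral_congr_fun measurableSet_Ioi fun u _ => ?_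
    simp only [ph]
    push_cast
    ring
  unfold PhiN
  rw [g, g, e]
  have e1 : (2 : ℝ) * (9 / 4) = 9 / 2 := by norm_num
  have e2 : (2 : ℝ) * (5 / 4) = 5 / 2 := by norm_num
  rw [e1, e2]
  unfold an
  push_cast
  ring

/-- the decomposition into the Gamma part and the boundary part -/
theorem phi_dec {n : ℕ} (hn : 1 ≤ n) {z : ℂ} (hz : 0 ≤ z.im) :
    PhiN n z = ee n z * MM z + BB (an n) z := by
  have ha := c2_an hn
  have hac : (an n : ℂ) ≠ 0 := by exact_mod_cast ha.ne'
  -- the two exponentials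
  have gp : Continuous (fun u : ℝ => Complex.exp (Complex.I * z * u)) := by fun_prop
  have gm : Continuous (fun u : ℝ => Complex.exp (-Complex.I * z * u)) := by fun_prop
  have bp : ∀ u : ℝ, 0 < u → ‖Complex.exp (Complex.I * z * u)‖ ≤ Real.exp (0 * u) := by
    intro u hu
    rw [Complex.norm_exp, Real.exp_le_exp]
    have : (Complex.I * z * u).re = -(z.im * u) := by simp
    rw [this]
    nlinarith
  have bm : ∀ u : ℝ, 0 < u → ‖Complex.exp (-Complex.I * z * u)‖ ≤ Real.exp (z.im * u) := by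
    intro u hu
    rw [Complex.norm_exp, Real.exp_le_exp]
    have : (-Complex.I * z * u).re = z.im * u := by simp
    rw [this]
  have ip := c2_intph ha gp le_rfl bp
  have im := c2_intph ha gm hz bm
  -- the full line
  have full1 := EE_gamma ha (show (1 : ℝ) ≤ 9 / 2 by norm_num) hz
  have full2 := EE_gamma ha (show (1 : ℝ) ≤ 5 / 2 by norm_num) hz
  have fint : Integrable (fun u : ℝ => Complex.exp (-Complex.I * z * u) * (ph (an n) u : ℂ)) := by
    refine ((full1.1.const_mul (2 * (an n : ℂ) ^ 2)).sub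
      (full2.1.const_mul (3 * (an n : ℂ)))).congr (Eventually.of_forall fun u => ?_)
    simp only [Pi.sub_apply, ph]
    push_cast
    ring
  have fval : ∫ u : ℝ, Complex.exp (-Complex.I * z * u) * (ph (an n) u : ℂ) =
      2 * (an n : ℂ) ^ 2 * (1 / 2 * (Complex.Gamma (((9 / 2 : ℝ) - Complex.I * z) / 2) *
        (an n : ℂ) ^ (-((9 / 2 : ℝ) - Complex.I * z) / 2))) -
      3 * (an n : ℂ) * (1 / 2 * (Complex.Gamma (((5 / 2 : ℝ) - Complex.I * z) / 2) *
        (an n : ℂ) ^ (-((5 / 2 : ℝ) - Complex.I * z) / 2))) := by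
    rw [← full1.2, ← full2.2, ← integral_const_mul, ← integral_const_mul,
      ← integral_sub (full1.1.const_mul _) (full2.1.const_mul _)]
    refine integral_congr_ae (Eventually.of_forall fun u => ?_)
    simp only [ph]
    push_cast
    ring
  -- the reflected integral
  have hrefl : ∫ u in Ioi (0 : ℝ), Complex.exp (Complex.I * z * u) * (ph (an n) (-u) : ℂ) =
      ∫ u in Iic (0 : ℝ), Complex.exp (-Complex.I * z * u) * (ph (an n) u : ℂ) := by
    have h := integral_comp_neg_Ioi (0 : ℝ)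
      (fun u : ℝ => Complex.exp (-Complex.I * z * u) * (ph (an n) u : ℂ))
    rw [neg_zero] at h
    rw [← h]
    refine setIntegral_congr_fun measurableSet_Ioi fun u _ => ?_
    congr 2
    push_cast
    ring
  have irefl : IntegrableOn (fun u : ℝ => Complex.exp (Complex.I * z * u) *
      (ph (an n) (-u) : ℂ)) (Ioi 0) := by
    have h1 : Integrable (fun u : ℝ => Complex.exp (-Complex.I * z * (-u : ℝ)) *
      (ph (an n) (-u) : ℂ)) := fint.comp_neg
    refine (h1.congr (Eventually.of_forall fun u => ?_)).integrableOn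
    simp only
    congr 2
    push_cast
    ring
  have split : (∫ u in Iic (0 : ℝ), Complex.exp (-Complex.I * z * u) * (ph (an n) u : ℂ)) +
      ∫ u in Ioi (0 : ℝ), Complex.exp (-Complex.I * z * u) * (ph (an n) u : ℂ) =
      ∫ u : ℝ, Complex.exp (-Complex.I * z * u) * (ph (an n) u : ℂ) := by
    rw [← compl_Iic]
    exact integral_add_compl measurableSet_Iic fint
  have hB : BB (an n) z =
      2 * ((∫ u in Ioi (0 : ℝ), Complex.exp (Complex.I * z * u) * (ph (an n) u : ℂ)) -
        ∫ u in Ioi (0 : ℝ), Complex.exp (Complex.I * z * u) * (ph (an n) (-u) : ℂ)) := by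
    unfold BB
    rw [← integral_sub ip irefl]
    congr 1
    refine setIntegral_congr_fun measurableSet_Ioi fun u _ => ?_
    push_cast
    ring
  have hK : PhiN n z =
      2 * ((∫ u in Ioi (0 : ℝ), Complex.exp (Complex.I * z * u) * (ph (an n) u : ℂ)) +
        ∫ u in Ioi (0 : ℝ), Complex.exp (-Complex.I * z * u) * (ph (an n) u : ℂ)) := by
    rw [phi_kernel hn z, ← integral_add ip im, ← integral_const_mul, ← integral_const_mul]
    refine setIntegral_congr_fun measurableSet_Ioi fun u _ => ?_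
    rw [Complex.cos]
    have e1 : z * u * Complex.I = Complex.I * z * u := by ring
    have e2 : -(z * u) * Complex.I = -Complex.I * z * u := by ring
    rw [e1, e2]
    ring
  have key : PhiN n z - BB (an n) z =
      2 * ∫ u : ℝ, Complex.exp (-Complex.I * z * u) * (ph (an n) u : ℂ) := by
    rw [hK, hB, hrefl, ← split]
    ring
  -- evaluation
  set s : ℂ := 5 / 4 - Complex.I * z / 2 with hs
  have hsre : 0 < s.re := by
    rw [hs]
    have : (5 / 4 - Complex.I * z / 2 : ℂ).re = 5 / 4 + z.im / 2 := by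
      have h1 : (5 / 4 - Complex.I * z / 2 : ℂ) = ((5 / 4 : ℝ) : ℂ) - (Complex.I * z) * ((1 / 2 : ℝ) : ℂ) := by
        push_cast
        ring
      rw [h1, Complex.sub_re, Complex.re_mul_ofReal]
      simp
      ring
    rw [this]
    linarith
  have hs0 : s ≠ 0 := by
    intro h
    rw [h] at hsre
    simp at hsre
  have g1 : (((9 / 2 : ℝ) : ℂ) - Complex.I * z) / 2 = s + 1 := by
    rw [hs]
    push_cast
    ring
  have g2 : (((5 / 2 : ℝ) : ℂ) - Complex.I * z) / 2 = s := by
    rw [hs]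
    push_cast
    ring
  have g3 : -(((9 / 2 : ℝ) : ℂ) - Complex.I * z) / 2 = -(s + 1) := by
    rw [hs]
    push_cast
    ring
  have g4 : -(((5 / 2 : ℝ) : ℂ) - Complex.I * z) / 2 = -s := by
    rw [hs]
    push_cast
    ring
  rw [fval, g1, g2, g3, g4, Complex.Gamma_add_one s hs0] at key
  have p1 : (an n : ℂ) ^ 2 * (an n : ℂ) ^ (-(s + 1)) = (an n : ℂ) ^ (1 - s) := by
    have : (1 - s : ℂ) = (2 : ℕ) + -(s + 1) := by
      push_cast
      ring
    rw [this, Complex.cpow_add _ _ hac, Complex.cpow_natCast]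
  have p2 : (an n : ℂ) * (an n : ℂ) ^ (-s) = (an n : ℂ) ^ (1 - s) := by
    have : (1 - s : ℂ) = 1 + -s := by ring
    rw [this, Complex.cpow_add _ _ hac, Complex.cpow_one]
  have p3 : (an n : ℂ) ^ (1 - s) = (Real.pi : ℂ) ^ (1 - s) * (n : ℂ) ^ (2 * (1 - s)) := by
    have hn0 : (n : ℂ) ≠ 0 := by
      have : n ≠ 0 := by omega
      exact_mod_cast this
    have e1 : (an n : ℂ) = (Real.pi : ℂ) * (((n : ℝ) * (n : ℝ) : ℝ) : ℂ) := by
      unfold an
      push_cast
      ring
    rw [e1, Complex.mul_cpow_ofReal_nonneg Real.pi_pos.le (by positivity)]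
    congr 1
    rw [Complex.ofReal_mul, Complex.mul_cpow_ofReal_nonneg (Nat.cast_nonneg n) (Nat.cast_nonneg n),
      Complex.ofReal_natCast, ← Complex.cpow_add _ _ hn0]
    congr 1
    ring
  have key2 : PhiN n z - BB (an n) z =
      (Real.pi : ℂ) ^ (1 - s) * (n : ℂ) ^ (2 * (1 - s)) * Complex.Gamma s * (2 * s - 3) := by
    rw [key, ← p3]
    calc 2 * (2 * (an n : ℂ) ^ 2 * (1 / 2 * (s * Complex.Gamma s * (an n : ℂ) ^ (-(s + 1)))) -
        3 * (an n : ℂ) * (1 / 2 * (Complex.Gamma s * (an n : ℂ) ^ (-s)))) =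
        2 * s * Complex.Gamma s * ((an n : ℂ) ^ 2 * (an n : ℂ) ^ (-(s + 1))) -
          3 * Complex.Gamma s * ((an n : ℂ) * (an n : ℂ) ^ (-s)) := by ring
      _ = _ := by
          rw [p1, p2]
          ring
  have q1 : (1 - s : ℂ) = -1 / 4 + Complex.I * z / 2 := by
    rw [hs]
    ring
  have q2 : (2 * (1 - s) : ℂ) = -1 / 2 + Complex.I * z := by
    rw [hs]
    ring
  have q3 : (2 * s - 3 : ℂ) = -1 / 2 - Complex.I * z := by
    rw [hs]
    ring
  rw [q2, q1, q3] at key2
  have fin : ee n z * MM z = (Real.pi : ℂ) ^ (-1 / 4 + Complex.I * z / 2) *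
      (n : ℂ) ^ (-1 / 2 + Complex.I * z) * Complex.Gamma s * (-1 / 2 - Complex.I * z) := by
    unfold ee MM
    rw [← hs]
    ring
  rw [fin, ← key2]
  ring

end Pool.Agent.XI
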