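import Pool.Agent.Lib_helper1.XI.Defs
set_option autoImplicit false

namespace Pool.Agent.XI

open MeasureTheory Set Filter Topology

/-- `a ^ j` times `EE a (1/2 + 2 j)` for `a = π (n + 1)²` -/
noncomputable def d1_t (j : ℕ) (n : ℕ) (u : ℝ) : ℝ :=
  (an (n + 1)) ^ j * EE (an (n + 1)) (1 / 2 + 2 * (j : ℝ)) u

/-- their sum -/
noncomputable def d1_F (j : ℕ) (u : ℝ) : ℝ := ∑' n : ℕ, d1_t j n u

lemma d1_an_nonneg (n : ℕ) : 0 ≤ an n := by
  unfold an
  positivity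

lemma d1_EE_deriv (a c u : ℝ) :
    HasDerivAt (fun u : ℝ => EE a c u) (c * EE a c u - 2 * (a * EE a (c + 2) u)) u := by
  unfold EE
  have h2 : HasDerivAt (fun u : ℝ => Real.exp (2 * u)) (Real.exp (2 * u) * 2) u := by
    have h := ((hasDerivAt_id u).const_mul (2 : ℝ)).exp
    simpa using h
  have h1 : HasDerivAt (fun u : ℝ => c * u - a * Real.exp (2 * u))
      (c - a * (Real.exp (2 * u) * 2)) u := by
    have h := ((hasDerivAt_id u).const_mul c).sub (h2.const_mul a)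
    rw [mul_one] at h
    exact h
  have h3 := h1.exp
  have e : Real.exp ((c + 2) * u - a * Real.exp (2 * u)) =
      Real.exp (c * u - a * Real.exp (2 * u)) * Real.exp (2 * u) := by
    rw [← Real.exp_add]
    congr 1
    ring
  rw [e]
  have e2 : c * Real.exp (c * u - a * Real.exp (2 * u)) -
      2 * (a * (Real.exp (c * u - a * Real.exp (2 * u)) * Real.exp (2 * u))) =
      Real.exp (c * u - a * Real.exp (2 * u)) * (c - a * (Real.exp (2 * u) * 2)) := by ring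
  rw [e2]
  exact h3

lemma d1_t_deriv (j n : ℕ) (u : ℝ) :
    HasDerivAt (d1_t j n)
      ((1 / 2 + 2 * (j : ℝ)) * d1_t j n u - 2 * d1_t (j + 1) n u) u := by
  have h := (d1_EE_deriv (an (n + 1)) (1 / 2 + 2 * (j : ℝ)) u).const_mul ((an (n + 1)) ^ j)
  have e : (1 / 2 + 2 * (j : ℝ)) * d1_t j n u - 2 * d1_t (j + 1) n u =
      an (n + 1) ^ j * ((1 / 2 + 2 * (j : ℝ)) * EE (an (n + 1)) (1 / 2 + 2 * (j : ℝ)) u -
        2 * (an (n + 1) * EE (an (n + 1)) (1 / 2 + 2 * (j : ℝ) + 2) u)) := by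
    unfold d1_t
    have e1 : (1 / 2 + 2 * ((j + 1 : ℕ) : ℝ)) = 1 / 2 + 2 * (j : ℝ) + 2 := by
      push_cast
      ring
    rw [e1, pow_succ]
    ring
  rw [e]
  exact h

lemma d1_summable0 (j : ℕ) (c : ℝ) (hc : 0 < c) :
    Summable (fun n : ℕ => (an n) ^ j * Real.exp (-(an n * c))) := by
  have h := (Real.summable_pow_mul_exp_neg_nat_mul (2 * j) (mul_pos Real.pi_pos hc)).mul_left
    (Real.pi ^ j)
  refine Summable.of_nonneg_of_le (fun n => ?_) (fun n => ?_) h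
  · exact mul_nonneg (pow_nonneg (d1_an_nonneg n) j) (Real.exp_pos _).le
  · unfold an
    rw [mul_pow, ← pow_mul, mul_assoc]
    refine mul_le_mul_of_nonneg_left ?_ (by positivity)
    refine mul_le_mul_of_nonneg_left ?_ (by positivity)
    rw [Real.exp_le_exp]
    have hn : (n : ℝ) ≤ (n : ℝ) ^ 2 := by
      rcases Nat.eq_zero_or_pos n with h0 | h0
      · simp [h0]
      · have : (1 : ℝ) ≤ (n : ℝ) := by exact_mod_cast h0
        nlinarith
    have hp : 0 < Real.pi * c := mul_pos Real.pi_pos hc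
    nlinarith [mul_le_mul_of_nonneg_left hn hp.le]

/-- the bound -/
noncomputable def d1_b (j : ℕ) (M : ℝ) (n : ℕ) : ℝ :=
  Real.exp ((1 / 2 + 2 * (j : ℝ)) * M) *
    ((an (n + 1)) ^ j * Real.exp (-(an (n + 1) * Real.exp (-(2 * M)))))

lemma d1_b_summable (j : ℕ) (M : ℝ) : Summable (d1_b j M) := by
  have h := (summable_nat_add_iff 1).mpr (d1_summable0 j (Real.exp (-(2 * M))) (Real.exp_pos _))
  exact h.mul_left _

lemma d1_b_nonneg (j : ℕ) (M : ℝ) (n : ℕ) : 0 ≤ d1_b j M n :=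
  mul_nonneg (Real.exp_pos _).le
    (mul_nonneg (pow_nonneg (d1_an_nonneg _) j) (Real.exp_pos _).le)

lemma d1_t_nonneg (j n : ℕ) (u : ℝ) : 0 ≤ d1_t j n u :=
  mul_nonneg (pow_nonneg (d1_an_nonneg _) j) (Real.exp_pos _).le

lemma d1_t_le (j n : ℕ) (M u : ℝ) (h1 : -M < u) (h2 : u < M) : d1_t j n u ≤ d1_b j M n := by
  unfold d1_t d1_b EE
  have hA := d1_an_nonneg (n + 1)
  have e : Real.exp ((1 / 2 + 2 * (j : ℝ)) * M) *
      (an (n + 1) ^ j * Real.exp (-(an (n + 1) * Real.exp (-(2 * M))))) =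
      an (n + 1) ^ j * Real.exp ((1 / 2 + 2 * (j : ℝ)) * M + -(an (n + 1) *
        Real.exp (-(2 * M)))) := by
    rw [Real.exp_add]
    ring
  rw [e]
  refine mul_le_mul_of_nonneg_left ?_ (pow_nonneg hA j)
  rw [Real.exp_le_exp]
  have hj : (0 : ℝ) ≤ (j : ℝ) := Nat.cast_nonneg j
  have a1 : (1 / 2 + 2 * (j : ℝ)) * u ≤ (1 / 2 + 2 * (j : ℝ)) * M :=
    mul_le_mul_of_nonneg_left h2.le (by linarith)
  have a2 : Real.exp (-(2 * M)) ≤ Real.exp (2 * u) := by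
    rw [Real.exp_le_exp]
    linarith
  have a3 : an (n + 1) * Real.exp (-(2 * M)) ≤ an (n + 1) * Real.exp (2 * u) :=
    mul_le_mul_of_nonneg_left a2 hA
  linarith

lemma d1_t_summable (j : ℕ) (u : ℝ) : Summable (fun n : ℕ => d1_t j n u) := by
  have hM1 : -(|u| + 1) < u := by linarith [neg_abs_le u]
  have hM2 : u < |u| + 1 := by linarith [le_abs_self u]
  exact Summable.of_nonneg_of_le (fun n => d1_t_nonneg j n u)
    (fun n => d1_t_le j n _ u hM1 hM2) (d1_b_summable j (|u| + 1))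

lemma d1_F_deriv (j : ℕ) (u : ℝ) :
    HasDerivAt (d1_F j) ((1 / 2 + 2 * (j : ℝ)) * d1_F j u - 2 * d1_F (j + 1) u) u := by
  have hM1 : -(|u| + 1) < u := by linarith [neg_abs_le u]
  have hM2 : u < |u| + 1 := by linarith [le_abs_self u]
  have hu : u ∈ Ioo (-(|u| + 1)) (|u| + 1) := ⟨hM1, hM2⟩
  have hj : (0 : ℝ) ≤ (j : ℝ) := Nat.cast_nonneg j
  have hb : Summable (fun n : ℕ => (1 / 2 + 2 * (j : ℝ)) * d1_b j (|u| + 1) n +
      2 * d1_b (j + 1) (|u| + 1) n) :=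
    ((d1_b_summable j (|u| + 1)).mul_left _).add ((d1_b_summable (j + 1) (|u| + 1)).mul_left _)
  have h := hasDerivAt_tsum_of_isPreconnected (g := fun n : ℕ => d1_t j n)
    (g' := fun (n : ℕ) (y : ℝ) => (1 / 2 + 2 * (j : ℝ)) * d1_t j n y - 2 * d1_t (j + 1) n y)
    hb isOpen_Ioo isPreconnected_Ioo (fun n y _ => d1_t_deriv j n y)
    (fun n y hy => by
      have b1 := d1_t_le j n _ y hy.1 hy.2
      have b2 := d1_t_le (j + 1) n _ y hy.1 hy.2
      have b3 := d1_t_nonneg j n y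
      have b4 := d1_t_nonneg (j + 1) n y
      rw [Real.norm_eq_abs, abs_le]
      have c1 : (1 / 2 + 2 * (j : ℝ)) * d1_t j n y ≤
          (1 / 2 + 2 * (j : ℝ)) * d1_b j (|u| + 1) n :=
        mul_le_mul_of_nonneg_left b1 (by linarith)
      have c2 : 0 ≤ (1 / 2 + 2 * (j : ℝ)) * d1_t j n y := mul_nonneg (by linarith) b3
      have c3 : 0 ≤ (1 / 2 + 2 * (j : ℝ)) * d1_b j (|u| + 1) n := le_trans c2 c1
      have c4 : 0 ≤ d1_b (j + 1) (|u| + 1) n := d1_b_nonneg _ _ _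
      constructor <;> linarith)
    hu (d1_t_summable j u) hu
  have e : ∑' n : ℕ, ((1 / 2 + 2 * (j : ℝ)) * d1_t j n u - 2 * d1_t (j + 1) n u) =
      (1 / 2 + 2 * (j : ℝ)) * d1_F j u - 2 * d1_F (j + 1) u := by
    unfold d1_F
    rw [← tsum_mul_left, ← tsum_mul_left]
    exact Summable.tsum_sub ((d1_t_summable j u).mul_left _)
      ((d1_t_summable (j + 1) u).mul_left _)
  rw [e] at h
  exact h

/-- the even function -/
noncomputable def d1_H (u : ℝ) : ℝ := Real.exp (u / 2) + 2 * d1_F 0 u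

lemma d1_t0 (n : ℕ) (u : ℝ) :
    d1_t 0 n u = Real.exp (u / 2) * Real.exp (-Real.pi * Real.exp (2 * u) * ((n : ℝ) + 1) ^ 2) := by
  unfold d1_t EE an
  rw [pow_zero, one_mul, ← Real.exp_add]
  congr 1
  push_cast
  ring

lemma d1_int_sum (a : ℝ) (S : ℝ)
    (h : HasSum (fun n : ℕ => Real.exp (-Real.pi * a * ((n : ℝ) + 1) ^ 2)) S) :
    HasSum (fun n : ℤ => Real.exp (-Real.pi * a * (n : ℝ) ^ 2)) (1 + 2 * S) := by
  have h1 : HasSum (fun n : ℕ => Real.exp (-Real.pi * a * (((n : ℤ) : ℝ)) ^ 2)) (S + 1) := by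
    have h0 : HasSum (fun n : ℕ => (fun m : ℕ => Real.exp (-Real.pi * a * (m : ℝ) ^ 2)) (n + 1)) S := by
      simpa using h
    have h2 := (hasSum_nat_add_iff (f := fun m : ℕ => Real.exp (-Real.pi * a * (m : ℝ) ^ 2)) 1).mp h0
    simpa using h2
  have h2 : HasSum (fun n : ℕ => Real.exp (-Real.pi * a * (((-((n : ℤ) + 1) : ℤ)) : ℝ) ^ 2)) S := by
    have e : (fun n : ℕ => Real.exp (-Real.pi * a * (((-((n : ℤ) + 1) : ℤ)) : ℝ) ^ 2)) =
        (fun n : ℕ => Real.exp (-Real.pi * a * ((n : ℝ) + 1) ^ 2)) := by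
      funext n
      congr 1
      push_cast
      ring
    rw [e]
    exact h
  have h3 := HasSum.of_nat_of_neg_add_one
    (f := fun n : ℤ => Real.exp (-Real.pi * a * (n : ℝ) ^ 2)) h1 h2
  have e : 1 + 2 * S = S + 1 + S := by ring
  rw [e]
  exact h3

lemma d1_H_eq (u : ℝ) :
    d1_H u = Real.exp (u / 2) * ∑' n : ℤ, Real.exp (-Real.pi * Real.exp (2 * u) * (n : ℝ) ^ 2) := by
  have h0 : HasSum (fun n : ℕ => Real.exp (-Real.pi * Real.exp (2 * u) * ((n : ℝ) + 1) ^ 2))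
      (Real.exp (-(u / 2)) * d1_F 0 u) := by
    have h := (d1_t_summable 0 u).hasSum.mul_left (Real.exp (-(u / 2)))
    have e : (fun n : ℕ => Real.exp (-(u / 2)) * d1_t 0 n u) =
        (fun n : ℕ => Real.exp (-Real.pi * Real.exp (2 * u) * ((n : ℝ) + 1) ^ 2)) := by
      funext n
      rw [d1_t0, ← mul_assoc, ← Real.exp_add]
      simp
    rw [e] at h
    exact h
  have h1 := (d1_int_sum (Real.exp (2 * u)) _ h0).tsum_eq
  rw [h1]
  unfold d1_H
  have e : Real.exp (u / 2) * (1 + 2 * (Real.exp (-(u / 2)) * d1_F 0 u)) =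
      Real.exp (u / 2) + 2 * ((Real.exp (u / 2) * Real.exp (-(u / 2))) * d1_F 0 u) := by ring
  rw [e, ← Real.exp_add]
  simp

lemma d1_H_even (u : ℝ) : d1_H (-u) = d1_H u := by
  rw [d1_H_eq, d1_H_eq, Real.tsum_exp_neg_mul_int_sq (Real.exp_pos (2 * u))]
  have e1 : (Real.exp (2 * u)) ^ (1 / 2 : ℝ) = Real.exp u := by
    rw [← Real.exp_mul]
    congr 1
    ring
  have e2 : -Real.pi / Real.exp (2 * u) = -Real.pi * Real.exp (2 * -u) := by
    rw [div_eq_mul_inv, ← Real.exp_neg]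
    congr 2
    ring
  rw [e1, e2, ← mul_assoc, one_div, ← Real.exp_neg, ← Real.exp_add]
  congr 2
  ring

lemma d1_odd (f g : ℝ → ℝ) (s : ℝ) (hf : ∀ u, f (-u) = s * f u) (hg : ∀ u, HasDerivAt f (g u) u)
    (u : ℝ) : g (-u) = -s * g u := by
  have h1 : HasDerivAt (fun x : ℝ => f (-x)) (-(g (-u))) u := by
    have h := HasDerivAt.comp u (hg (-u)) (hasDerivAt_neg u)
    rw [mul_neg, mul_one] at h
    exact h
  have h2 : HasDerivAt (fun x : ℝ => f (-x)) (s * g u) u := by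
    have h := (hg u).const_mul s
    have e : (fun x : ℝ => f (-x)) = (fun x : ℝ => s * f x) := funext hf
    rw [e]
    exact h
  have h3 := h1.unique h2
  linarith

lemma d1_e_deriv (c u : ℝ) :
    HasDerivAt (fun u : ℝ => c * Real.exp (u / 2)) (c / 2 * Real.exp (u / 2)) u := by
  have h := (((hasDerivAt_id u).div_const 2).exp).const_mul c
  have e : c / 2 * Real.exp (u / 2) = c * (Real.exp (id u / 2) * (1 / 2)) := by
    simp only [id]
    ring
  rw [e]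
  exact h

lemma d1_F0 (u : ℝ) : HasDerivAt (d1_F 0) (1 / 2 * d1_F 0 u - 2 * d1_F 1 u) u := by
  have h := d1_F_deriv 0 u
  norm_num at h
  norm_num
  exact h

lemma d1_F1 (u : ℝ) : HasDerivAt (d1_F 1) (5 / 2 * d1_F 1 u - 2 * d1_F 2 u) u := by
  have h := d1_F_deriv 1 u
  norm_num at h
  exact h

lemma d1_F2 (u : ℝ) : HasDerivAt (d1_F 2) (9 / 2 * d1_F 2 u - 2 * d1_F 3 u) u := by
  have h := d1_F_deriv 2 u
  norm_num at h
  exact h

/-- the derivatives of the functional equation of the theta function at `1` -/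
theorem ph1_sum : HasSum (fun n : ℕ => ph1 (an (n + 1)) 0) 0 := by
  have hH1 : ∀ u : ℝ, HasDerivAt d1_H
      (1 / 2 * Real.exp (u / 2) + (d1_F 0 u - 4 * d1_F 1 u)) u := by
    intro u
    have h := (d1_e_deriv 1 u).add ((d1_F0 u).const_mul 2)
    have e : 1 / 2 * Real.exp (u / 2) + (d1_F 0 u - 4 * d1_F 1 u) =
        1 / 2 * Real.exp (u / 2) + 2 * (1 / 2 * d1_F 0 u - 2 * d1_F 1 u) := by ring
    rw [e]
    have e2 : d1_H = (fun u : ℝ => 1 * Real.exp (u / 2)) + fun y => 2 * d1_F 0 y := by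
      funext x
      simp [d1_H]
    rw [e2]
    exact h
  have hH2 : ∀ u : ℝ, HasDerivAt (fun u : ℝ => 1 / 2 * Real.exp (u / 2) +
      (d1_F 0 u - 4 * d1_F 1 u))
      (1 / 4 * Real.exp (u / 2) + (1 / 2 * d1_F 0 u - 12 * d1_F 1 u + 8 * d1_F 2 u)) u := by
    intro u
    have h := (d1_e_deriv (1 / 2) u).add ((d1_F0 u).sub ((d1_F1 u).const_mul 4))
    have e : 1 / 4 * Real.exp (u / 2) + (1 / 2 * d1_F 0 u - 12 * d1_F 1 u + 8 * d1_F 2 u) =
        1 / 2 / 2 * Real.exp (u / 2) + (1 / 2 * d1_F 0 u - 2 * d1_F 1 u -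
          4 * (5 / 2 * d1_F 1 u - 2 * d1_F 2 u)) := by ring
    rw [e]
    exact h
  have hH3 : ∀ u : ℝ, HasDerivAt (fun u : ℝ => 1 / 4 * Real.exp (u / 2) +
      (1 / 2 * d1_F 0 u - 12 * d1_F 1 u + 8 * d1_F 2 u))
      (1 / 8 * Real.exp (u / 2) + (1 / 4 * d1_F 0 u - 31 * d1_F 1 u + 60 * d1_F 2 u -
        16 * d1_F 3 u)) u := by
    intro u
    have h := (d1_e_deriv (1 / 4) u).add ((((d1_F0 u).const_mul (1 / 2)).sub
      ((d1_F1 u).const_mul 12)).add ((d1_F2 u).const_mul 8))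
    have e : 1 / 8 * Real.exp (u / 2) + (1 / 4 * d1_F 0 u - 31 * d1_F 1 u + 60 * d1_F 2 u -
        16 * d1_F 3 u) =
        1 / 4 / 2 * Real.exp (u / 2) + (1 / 2 * (1 / 2 * d1_F 0 u - 2 * d1_F 1 u) -
          12 * (5 / 2 * d1_F 1 u - 2 * d1_F 2 u) + 8 * (9 / 2 * d1_F 2 u - 2 * d1_F 3 u)) := by ring
    rw [e]
    exact h
  have o1 := d1_odd _ _ 1 (fun u => by rw [one_mul]; exact d1_H_even u) hH1
  have o2 := d1_odd _ _ _ o1 hH2
  have o3 := d1_odd _ _ _ o2 hH3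
  have z1 := o1 0
  have z3 := o3 0
  have s1 := (d1_t_summable 1 0).hasSum
  have s2 := (d1_t_summable 2 0).hasSum
  have s3 := (d1_t_summable 3 0).hasSum
  have s := ((s3.mul_left (-4)).add (s2.mul_left 15)).sub (s1.mul_left (15 / 2))
  have e1 : (fun n : ℕ => -4 * d1_t 3 n 0 + 15 * d1_t 2 n 0 - 15 / 2 * d1_t 1 n 0) =
      (fun n : ℕ => ph1 (an (n + 1)) 0) := by
    funext n
    unfold d1_t ph1
    norm_num
    ring
  rw [e1] at s
  have e2 : -4 * (∑' n : ℕ, d1_t 3 n 0) + 15 * (∑' n : ℕ, d1_t 2 n 0) -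
      15 / 2 * (∑' n : ℕ, d1_t 1 n 0) = 0 := by
    have f1 : (∑' n : ℕ, d1_t 1 n 0) = d1_F 1 0 := rfl
    have f2 : (∑' n : ℕ, d1_t 2 n 0) = d1_F 2 0 := rfl
    have f3 : (∑' n : ℕ, d1_t 3 n 0) = d1_F 3 0 := rfl
    rw [f1, f2, f3]
    simp only [neg_zero] at z1 z3
    linarith
  rw [e2] at s
  exact s

end Pool.Agent.XI
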