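import Pool.Agent.Lib_helper1.XI.Defs
import Pool.Agent.Lib_helper1.XI.P.D1
set_option autoImplicit false

namespace Pool.Agent.XI

open MeasureTheory Set Filter Topology

theorem D2_aa (a : ℝ) : aa a = Real.exp (-a) * (a * (16 * a ^ 2 - 60 * a + 30)) := by
  unfold aa ph1 EE
  have h : ∀ c : ℝ, Real.exp (c * 0 - a * Real.exp (2 * 0)) = Real.exp (-a) := by
    intro c
    norm_num
  rw [h, h, h]
  ring

theorem D2_an {n : ℕ} (hn : 2 ≤ n) : 12 ≤ an n := by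
  unfold an
  have h1 : (2 : ℝ) ≤ (n : ℝ) := by exact_mod_cast hn
  have h2 : (4 : ℝ) ≤ (n : ℝ) ^ 2 := by nlinarith
  have h3 : (3 : ℝ) < Real.pi := Real.pi_gt_three
  nlinarith

theorem aa_pos {n : ℕ} (hn : 2 ≤ n) : 0 < aa (an n) := by
  rw [D2_aa]
  have h := D2_an hn
  refine mul_pos (Real.exp_pos _) (mul_pos (by linarith) ?_)
  nlinarith

/-- `c(t)` is negative, uniformly in `t` -/
theorem cc_neg {k : ℕ} (hk : 1 ≤ k) : ∃ δ : ℝ, 0 < δ ∧ ∀ t ∈ Icc (0 : ℝ) 1, cc k t ≤ -δ := by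
  have hs : HasSum (fun n : ℕ => aa (an (n + 1))) 0 := by
    have h := ph1_sum.mul_left (-4)
    simpa [aa] using h
  have h1 : ∑ n ∈ Finset.range (k + 1), aa (an (n + 1)) + ∑' n : ℕ, aa (an (n + (k + 1) + 1)) = 0 := by
    rw [hs.summable.sum_add_tsum_nat_add (k + 1), hs.tsum_eq]
  have h2 : 0 < ∑' n : ℕ, aa (an (n + (k + 1) + 1)) := by
    have h3 : Summable fun n : ℕ => aa (an (n + (k + 1) + 1)) :=
      (summable_nat_add_iff (f := fun n : ℕ => aa (an (n + 1))) (k + 1)).2 hs.summable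
    refine h3.tsum_pos (fun n => (aa_pos (by omega)).le) 0 (aa_pos (by omega))
  refine ⟨_, h2, ?_⟩
  intro t ht
  have h4 : ∑ n ∈ Finset.Icc 1 k, aa (an n) = ∑ n ∈ Finset.range k, aa (an (n + 1)) := by
    rw [Finset.range_eq_Ico, Finset.sum_Ico_add' (fun n : ℕ => aa (an n)) 0 k 1]
    rfl
  rw [Finset.sum_range_succ] at h1
  have h5 : 0 < aa (an (k + 1)) := aa_pos (by omega)
  unfold cc
  rw [h4]
  have h6 : t * aa (an (k + 1)) ≤ aa (an (k + 1)) := by
    have := ht.2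
    nlinarith
  linarith

end Pool.Agent.XI
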