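import Pool.Agent.Lib_helper1.XI.Defs
import Pool.Agent.Lib_helper31.LKF.KD2
set_option autoImplicit false

namespace Pool.Agent.XI

open MeasureTheory Set Filter Topology

/-- the terms -/
noncomputable def E1_F (w : ℂ) (n : ℕ) (x : ℝ) : ℂ := -(1 / ((n : ℂ) + 1)) * (x : ℂ) ^ ((n : ℂ) + w)

theorem E1_int {w : ℂ} (hw : 0 < w.re) (n : ℕ) :
    IntegrableOn (E1_F w n) (Ioc 0 1) ∧
      ∫ x in Ioc (0 : ℝ) 1, E1_F w n x = -(1 / (((n : ℂ) + 1) * ((n : ℂ) + 1 + w))) := by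
  have h0 : -1 < ((n : ℂ) + w).re := by
    rw [Complex.add_re, Complex.natCast_re]
    have : (0 : ℝ) ≤ n := Nat.cast_nonneg n
    linarith
  constructor
  · have h := intervalIntegral.intervalIntegrable_cpow' (a := 0) (b := 1) h0
    rw [intervalIntegrable_iff_integrableOn_Ioc_of_le zero_le_one] at h
    exact h.const_mul _
  · have h1 : (n : ℂ) + w + 1 ≠ 0 := by
      intro h
      have := congrArg Complex.re h
      rw [Complex.add_re, Complex.one_re, Complex.zero_re] at this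
      linarith
    have h2 : (n : ℂ) + 1 ≠ 0 := Nat.cast_add_one_ne_zero n
    rw [← intervalIntegral.integral_of_le zero_le_one]
    unfold E1_F
    rw [intervalIntegral.integral_const_mul, integral_cpow (Or.inl h0)]
    rw [Complex.ofReal_one, Complex.one_cpow, Complex.ofReal_zero, Complex.zero_cpow h1, sub_zero]
    rw [show (n : ℂ) + 1 + w = (n : ℂ) + w + 1 by ring]
    field_simp

theorem E1_norm {w : ℂ} (hw : 0 < w.re) (n : ℕ) :
    ∫ x in Ioc (0 : ℝ) 1, ‖E1_F w n x‖ = 1 / (((n : ℝ) + 1) * ((n : ℝ) + 1 + w.re)) := by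
  have hn : (0 : ℝ) ≤ n := Nat.cast_nonneg n
  have h0 : -1 < (n : ℝ) + w.re := by linarith
  have e : ∀ x ∈ Ioc (0 : ℝ) 1, ‖E1_F w n x‖ = 1 / ((n : ℝ) + 1) * x ^ ((n : ℝ) + w.re) := by
    intro x hx
    unfold E1_F
    rw [norm_mul, norm_neg, Complex.norm_cpow_eq_rpow_re_of_pos hx.1, Complex.add_re,
      Complex.natCast_re, norm_div, norm_one]
    congr 2
    have : (n : ℂ) + 1 = ((n + 1 : ℕ) : ℂ) := by push_cast; rfl
    rw [this, Complex.norm_natCast]
    push_cast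
    rfl
  rw [setIntegral_congr_fun measurableSet_Ioc e, ← intervalIntegral.integral_of_le zero_le_one,
    intervalIntegral.integral_const_mul, integral_rpow (Or.inl h0), Real.one_rpow,
    Real.zero_rpow (by linarith), sub_zero]
  have h1 : (n : ℝ) + w.re + 1 ≠ 0 := by linarith
  have h2 : (n : ℝ) + 1 ≠ 0 := by linarith
  rw [show (n : ℝ) + 1 + w.re = (n : ℝ) + w.re + 1 by ring]
  field_simp

theorem E1_sum {w : ℂ} (hw : 0 < w.re) :
    Summable fun n : ℕ => ∫ x in Ioc (0 : ℝ) 1, ‖E1_F w n x‖ := by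
  have h : Summable fun n : ℕ => 1 / ((n : ℝ) + 1) ^ 2 := by
    have h1 := (summable_nat_add_iff (f := fun n : ℕ => 1 / (n : ℝ) ^ 2) 1).2
      (Real.summable_one_div_nat_pow.2 one_lt_two)
    simpa using h1
  refine h.of_nonneg_of_le (fun n => integral_nonneg fun x => norm_nonneg _) ?_
  intro n
  rw [E1_norm hw n]
  have hn : (0 : ℝ) ≤ n := Nat.cast_nonneg n
  apply one_div_le_one_div_of_le (by positivity)
  nlinarith

theorem E1_tsum {w : ℂ} {x : ℝ} (hx : x ∈ Ioo (0 : ℝ) 1) :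
    HasSum (fun n : ℕ => E1_F w n x) ((x : ℂ) ^ (w - 1) * ((Real.log (1 - x) : ℝ) : ℂ)) := by
  have hx0 : (x : ℂ) ≠ 0 := by exact_mod_cast hx.1.ne'
  have h1 := Real.hasSum_pow_div_log_of_abs_lt_one (x := x) (by rw [abs_of_pos hx.1]; exact hx.2)
  have h2 : HasSum (fun n : ℕ => ((x ^ (n + 1) / ((n : ℝ) + 1) : ℝ) : ℂ))
      ((-Real.log (1 - x) : ℝ) : ℂ) := Complex.hasSum_ofReal.2 h1
  have h3 := h2.mul_left (-(x : ℂ) ^ (w - 1))
  have e1 : (-(x : ℂ) ^ (w - 1)) * ((-Real.log (1 - x) : ℝ) : ℂ) =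
      (x : ℂ) ^ (w - 1) * ((Real.log (1 - x) : ℝ) : ℂ) := by
    push_cast
    ring
  have e2 : (fun n : ℕ => -(x : ℂ) ^ (w - 1) * ((x ^ (n + 1) / ((n : ℝ) + 1) : ℝ) : ℂ)) =
      fun n : ℕ => E1_F w n x := by
    funext n
    unfold E1_F
    have e3 : (x : ℂ) ^ ((n : ℂ) + w) = (x : ℂ) ^ (w - 1) * (x : ℂ) ^ (n + 1) := by
      rw [← Complex.cpow_natCast, ← Complex.cpow_add _ _ hx0]
      congr 1
      push_cast
      ring
    rw [e3]
    push_cast
    ring
  rw [e1, e2] at h3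
  exact h3

/-- the series of the logarithmic derivative of the Gamma function -/
theorem dig_series {w : ℂ} (hw : 0 < w.re) :
    HasSum (fun n : ℕ => 1 / ((n : ℂ) + 1) - 1 / ((n : ℂ) + 1 + w))
      (Complex.digamma (1 + w) - Complex.digamma 1) := by
  have h1 := hasSum_integral_of_summable_integral_norm (μ := volume.restrict (Ioc (0 : ℝ) 1))
    (fun n => (E1_int hw n).1) (E1_sum hw)
  have h2 : ∫ x in Ioc (0 : ℝ) 1, ∑' n, E1_F w n x = mellin (Pool.Agent.LK.kd2_h 1) w := by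
    rw [Pool.Agent.LK.kd2_h, Pool.Agent.LK.kd2_mellin, intervalIntegral.integral_of_le zero_le_one,
      integral_Ioc_eq_integral_Ioo, integral_Ioc_eq_integral_Ioo]
    refine setIntegral_congr_fun measurableSet_Ioo fun x hx => ?_
    change ∑' n, E1_F w n x = (x : ℂ) ^ (w - 1) * ((Real.log (1 - x) : ℝ) : ℂ) ^ 1
    rw [(E1_tsum hx).tsum_eq, pow_one]
  rw [h2] at h1
  have h3 := h1.mul_left (-w)
  have h4 := Pool.Agent.LK.kd2_h1_pos hw
  have h5 : -w * mellin (Pool.Agent.LK.kd2_h 1) w =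
      Complex.digamma (1 + w) - Complex.digamma 1 := by
    rw [neg_mul, h4, neg_sub]
  rw [h5] at h3
  have h6 : (fun n : ℕ => 1 / ((n : ℂ) + 1) - 1 / ((n : ℂ) + 1 + w)) =
      fun n : ℕ => -w * ∫ x in Ioc (0 : ℝ) 1, E1_F w n x := ?_
  · rw [h6]
    exact h3
  funext n
  rw [(E1_int hw n).2]
  have e1 : (n : ℂ) + 1 ≠ 0 := Nat.cast_add_one_ne_zero n
  have e2 : (n : ℂ) + 1 + w ≠ 0 := by
    intro h
    have := congrArg Complex.re h
    rw [Complex.add_re, Complex.add_re, Complex.natCast_re, Complex.one_re, Complex.zero_re] at this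
    have hn : (0 : ℝ) ≤ n := Nat.cast_nonneg n
    linarith
  field_simp
  ring

end Pool.Agent.XI
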