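import Pool.Agent.Lib_helper1.XI.Defs
import Pool.Agent.Lib_helper1.XI.P.E1
set_option autoImplicit false

namespace Pool.Agent.XI

open MeasureTheory Set Filter Topology

theorem e2_re (n : ℕ) (w : ℂ) : (1 / ((n : ℂ) + 1) - 1 / ((n : ℂ) + 1 + w)).re =
    1 / ((n : ℝ) + 1) - ((n : ℝ) + 1 + w.re) / (((n : ℝ) + 1 + w.re) ^ 2 + w.im ^ 2) := by
  have h1 : (1 / ((n : ℂ) + 1)) = ((1 / ((n : ℝ) + 1) : ℝ) : ℂ) := by
    push_cast
    rfl
  rw [Complex.sub_re, h1, Complex.ofReal_re, one_div ((n : ℂ) + 1 + w), Complex.inv_re,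
    Complex.normSq_apply]
  have h2 : ((n : ℂ) + 1 + w).re = (n : ℝ) + 1 + w.re := by simp
  have h3 : ((n : ℂ) + 1 + w).im = w.im := by simp
  rw [h2, h3]
  ring_nf

theorem e2_im (n : ℕ) (w : ℂ) : (1 / ((n : ℂ) + 1) - 1 / ((n : ℂ) + 1 + w)).im =
    w.im / (((n : ℝ) + 1 + w.re) ^ 2 + w.im ^ 2) := by
  have h1 : (1 / ((n : ℂ) + 1)) = ((1 / ((n : ℝ) + 1) : ℝ) : ℂ) := by
    push_cast
    rfl
  rw [Complex.sub_im, h1, Complex.ofReal_im, one_div ((n : ℂ) + 1 + w), Complex.inv_im,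
    Complex.normSq_apply]
  have h2 : ((n : ℂ) + 1 + w).re = (n : ℝ) + 1 + w.re := by simp
  have h3 : ((n : ℂ) + 1 + w).im = w.im := by simp
  rw [h2, h3]
  ring_nf

theorem e2_im_bd {w : ℂ} (hw : 0 ≤ w.re) (n : ℕ) :
    |(1 / ((n : ℂ) + 1) - 1 / ((n : ℂ) + 1 + w)).im| ≤
      2 * (|w.im| / ((n : ℝ) + |w.im|) - |w.im| / (((n + 1 : ℕ) : ℝ) + |w.im|)) := by
  rw [e2_im]
  have hn : (0 : ℝ) ≤ n := Nat.cast_nonneg n
  obtain ⟨s, hs⟩ : ∃ s : ℝ, s = w.re := ⟨_, rfl⟩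
  obtain ⟨t, ht⟩ : ∃ t : ℝ, t = |w.im| := ⟨_, rfl⟩
  have ht0 : 0 ≤ t := by rw [ht]; exact abs_nonneg _
  have ht2 : w.im ^ 2 = t ^ 2 := by rw [ht, sq_abs]
  rw [← hs] at hw
  rw [← hs, ← ht, abs_div, ← ht, ht2, abs_of_nonneg (by positivity : 0 ≤ ((n : ℝ) + 1 + s) ^ 2 + t ^ 2)]
  push_cast
  rcases eq_or_lt_of_le ht0 with h | h
  · rw [← h]
    simp
  · have h1 : t / (((n : ℝ) + 1 + s) ^ 2 + t ^ 2) ≤ t * (2 / (((n : ℝ) + t) * (n + 1 + t))) := by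
      rw [div_eq_mul_one_div]
      refine mul_le_mul_of_nonneg_left ?_ ht0
      rw [div_le_div_iff₀ (by positivity) (by positivity)]
      nlinarith [sq_nonneg ((n : ℝ) + 1 - t), mul_nonneg hw hn, sq_nonneg s]
    refine h1.trans (le_of_eq ?_)
    field_simp
    ring

theorem e2_sum_im {w : ℂ} (hw : 0 ≤ w.re) (N : ℕ) :
    |(∑ n ∈ Finset.range N, (1 / ((n : ℂ) + 1) - 1 / ((n : ℂ) + 1 + w))).im| ≤ 2 := by
  rw [Complex.im_sum]
  refine (Finset.abs_sum_le_sum_abs _ _).trans ?_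
  refine (Finset.sum_le_sum fun n _ => e2_im_bd hw n).trans ?_
  rw [← Finset.mul_sum, Finset.sum_range_sub' (fun n : ℕ => |w.im| / ((n : ℝ) + |w.im|))]
  have h1 : |w.im| / (((0 : ℕ) : ℝ) + |w.im|) ≤ 1 := by
    rw [Nat.cast_zero, zero_add]
    exact div_self_le_one _
  have h2 : 0 ≤ |w.im| / ((N : ℝ) + |w.im|) := by positivity
  linarith

theorem dig_im : ∃ C : ℝ, 0 ≤ C ∧ ∀ w : ℂ, 5 / 4 ≤ w.re → |(Complex.digamma w).im| ≤ C := by
  refine ⟨2 + |(Complex.digamma 1).im|, by positivity, fun w hw => ?_⟩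
  have hw' : 0 < (w - 1).re := by
    rw [Complex.sub_re, Complex.one_re]
    linarith
  have h1 := (dig_series hw').tendsto_sum_nat
  rw [add_sub_cancel] at h1
  have h2 := ((Complex.continuous_im.tendsto _).comp h1).abs
  have h3 : |(Complex.digamma w - Complex.digamma 1).im| ≤ 2 :=
    le_of_tendsto h2 (Eventually.of_forall fun N => e2_sum_im hw'.le N)
  rw [Complex.sub_im] at h3
  have h4 := abs_sub_abs_le_abs_sub (Complex.digamma w).im (Complex.digamma 1).im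
  linarith

theorem e2_re_nonneg {w : ℂ} (hw : 0 ≤ w.re) (n : ℕ) :
    0 ≤ (1 / ((n : ℂ) + 1) - 1 / ((n : ℂ) + 1 + w)).re := by
  rw [e2_re, sub_nonneg]
  have hn : (0 : ℝ) ≤ n := Nat.cast_nonneg n
  rw [div_le_div_iff₀ (by positivity) (by positivity)]
  nlinarith [sq_nonneg w.im, mul_nonneg hw hn, mul_nonneg hw hw]

theorem e2_re_lower {w : ℂ} (hw : 0 < w.re) (n : ℕ) :
    1 / ((n : ℝ) + 1) - 1 / ‖w‖ ≤ (1 / ((n : ℂ) + 1) - 1 / ((n : ℂ) + 1 + w)).re := by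
  have hn : (0 : ℝ) ≤ n := Nat.cast_nonneg n
  have hw0 : 0 < ‖w‖ := lt_of_lt_of_le hw (Complex.re_le_norm w)
  have h1 : (1 / ((n : ℂ) + 1)).re = 1 / ((n : ℝ) + 1) := by
    have h1 : (1 / ((n : ℂ) + 1)) = ((1 / ((n : ℝ) + 1) : ℝ) : ℂ) := by
      push_cast
      rfl
    rw [h1, Complex.ofReal_re]
  rw [Complex.sub_re, h1]
  have h2 : (1 / ((n : ℂ) + 1 + w)).re ≤ 1 / ‖w‖ := by
    refine (Complex.re_le_norm _).trans ?_
    rw [norm_div, norm_one]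
    refine one_div_le_one_div_of_le hw0 ?_
    have h3 : ‖w‖ ^ 2 ≤ ‖(n : ℂ) + 1 + w‖ ^ 2 := by
      rw [← Complex.normSq_eq_norm_sq, ← Complex.normSq_eq_norm_sq, Complex.normSq_apply,
        Complex.normSq_apply]
      have h4 : ((n : ℂ) + 1 + w).re = (n : ℝ) + 1 + w.re := by simp
      have h5 : ((n : ℂ) + 1 + w).im = w.im := by simp
      rw [h4, h5]
      nlinarith [mul_nonneg hw.le hn]
    exact le_of_sq_le_sq h3 (norm_nonneg _)
  linarith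

theorem dig_re (A : ℝ) : ∃ ρ : ℝ, ∀ w : ℂ, 5 / 4 ≤ w.re → ρ ≤ ‖w‖ →
    A ≤ (Complex.digamma w).re := by
  have hH := Real.tendsto_sum_range_one_div_nat_succ_atTop.eventually_ge_atTop
    (A + 1 - (Complex.digamma 1).re)
  obtain ⟨N, hN⟩ := hH.exists
  refine ⟨N + 1, fun w hw hρ => ?_⟩
  have hw' : 0 < (w - 1).re := by
    rw [Complex.sub_re, Complex.one_re]
    linarith
  have hw0 : 0 < ‖w - 1‖ := lt_of_lt_of_le hw' (Complex.re_le_norm _)
  have hwN : (N : ℝ) ≤ ‖w - 1‖ := by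
    have h1 := norm_sub_norm_le w 1
    rw [norm_one] at h1
    linarith
  have h1 := (dig_series hw').tendsto_sum_nat
  rw [add_sub_cancel] at h1
  have h2 := (Complex.continuous_re.tendsto _).comp h1
  have h3 : ∑ n ∈ Finset.range N, (1 / ((n : ℝ) + 1) - 1 / ‖w - 1‖) ≤
      (Complex.digamma w - Complex.digamma 1).re := by
    refine ge_of_tendsto h2 (eventually_atTop.2 ⟨N, fun M hM => ?_⟩)
    show _ ≤ (∑ n ∈ Finset.range M, (1 / ((n : ℂ) + 1) - 1 / ((n : ℂ) + 1 + (w - 1)))).re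
    rw [Complex.re_sum]
    refine (Finset.sum_le_sum fun n _ => e2_re_lower hw' n).trans ?_
    exact Finset.sum_le_sum_of_subset_of_nonneg (Finset.range_mono hM)
      fun n _ _ => e2_re_nonneg hw'.le n
  rw [Finset.sum_sub_distrib, Finset.sum_const, Finset.card_range, nsmul_eq_mul,
    Complex.sub_re] at h3
  have h4 : (N : ℝ) * (1 / ‖w - 1‖) ≤ 1 := by
    rw [mul_one_div, div_le_one hw0]
    exact hwN
  linarith

end Pool.Agent.XI
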