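import Pool.Agent.Lib_helper1.XI.Defs
import Pool.Agent.Lib_helper1.XI.P.E2
set_option autoImplicit false

namespace Pool.Agent.XI

open MeasureTheory Set Filter Topology

theorem e3_re {z : ℂ} (hz : 0 ≤ z.im) : 5 / 4 ≤ (5 / 4 - Complex.I * z / 2 : ℂ).re := by
  have h : (5 / 4 - Complex.I * z / 2 : ℂ).re = 5 / 4 + z.im / 2 := by
    have e : (5 / 4 - Complex.I * z / 2 : ℂ) = ((5 / 4 : ℝ) : ℂ) - Complex.I * z * ((1 / 2 : ℝ) : ℂ) := by
      push_cast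
      ring
    rw [e, Complex.sub_re, Complex.ofReal_re, Complex.re_mul_ofReal, Complex.mul_re]
    simp
    ring
  rw [h]
  linarith

theorem e3_fac (z : ℂ) (h1 : 1 ≤ ‖z‖) : 1 / 2 ≤ ‖(-1 / 2 - Complex.I * z : ℂ)‖ := by
  have h2 : ‖z‖ ≤ ‖(-1 / 2 - Complex.I * z : ℂ)‖ + 1 / 2 := by
    have e : Complex.I * z = -(-1 / 2 - Complex.I * z : ℂ) + (-1 / 2 : ℂ) := by ring
    have e2 : ‖Complex.I * z‖ = ‖z‖ := by rw [norm_mul, Complex.norm_I, one_mul]
    have e3 : ‖(-1 / 2 : ℂ)‖ = 1 / 2 := by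
      have : (-1 / 2 : ℂ) = (((-1 / 2 : ℝ)) : ℂ) := by push_cast; ring
      rw [this, Complex.norm_real]
      norm_num
    calc ‖z‖ = ‖-(-1 / 2 - Complex.I * z : ℂ) + (-1 / 2 : ℂ)‖ := by rw [← e, e2]
      _ ≤ ‖-(-1 / 2 - Complex.I * z : ℂ)‖ + ‖(-1 / 2 : ℂ)‖ := norm_add_le _ _
      _ = _ := by rw [norm_neg, e3]
  linarith

theorem e3_fac_ne (z : ℂ) (h1 : 1 ≤ ‖z‖) : (-1 / 2 - Complex.I * z : ℂ) ≠ 0 := by
  intro h
  have := e3_fac z h1
  rw [h, norm_zero] at this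
  linarith

theorem e3_z (z : ℂ) (h1 : 1 ≤ ‖z‖) : z ≠ 0 := by
  intro h
  rw [h, norm_zero] at h1
  linarith

theorem e3_gam {z : ℂ} (hz : 0 ≤ z.im) : Complex.Gamma (5 / 4 - Complex.I * z / 2) ≠ 0 :=
  Complex.Gamma_ne_zero_of_re_pos (lt_of_lt_of_le (by norm_num) (e3_re hz))

theorem e3_pi : ((Real.pi : ℝ) : ℂ) ≠ 0 := Complex.ofReal_ne_zero.2 Real.pi_ne_zero

theorem WW_ne {z : ℂ} (hz : 0 ≤ z.im) (h1 : 1 ≤ ‖z‖) : WW z ≠ 0 := by
  unfold WW MM
  refine mul_ne_zero (pow_ne_zero 2 (e3_z z h1)) (mul_ne_zero (mul_ne_zero ?_ (e3_gam hz))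
    (e3_fac_ne z h1))
  intro h
  rw [Complex.cpow_eq_zero_iff] at h
  exact e3_pi h.1

theorem WW_deriv {z : ℂ} (hz : 0 ≤ z.im) (h1 : 1 ≤ ‖z‖) : HasDerivAt WW (WW z * LL z) z := by
  have hG := e3_gam hz
  have hre := e3_re hz
  have hF := e3_fac_ne z h1
  have hz0 := e3_z z h1
  -- the Gamma function
  have hdG : DifferentiableAt ℂ Complex.Gamma (5 / 4 - Complex.I * z / 2) := by
    apply Complex.differentiableAt_Gamma
    intro m h
    rw [h] at hre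
    simp at hre
    have : (0 : ℝ) ≤ m := Nat.cast_nonneg m
    linarith
  have hG1 : HasDerivAt Complex.Gamma (Complex.Gamma (5 / 4 - Complex.I * z / 2) *
      Complex.digamma (5 / 4 - Complex.I * z / 2)) (5 / 4 - Complex.I * z / 2) := by
    have e : Complex.Gamma (5 / 4 - Complex.I * z / 2) *
      Complex.digamma (5 / 4 - Complex.I * z / 2) = deriv Complex.Gamma (5 / 4 - Complex.I * z / 2) := by
      unfold Complex.digamma
      rw [logDeriv_apply]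
      exact mul_div_cancel₀ _ hG
    rw [e]
    exact hdG.hasDerivAt
  have hlin : HasDerivAt (fun z : ℂ => 5 / 4 - Complex.I * z / 2) (-(Complex.I / 2)) z := by
    have h := (((hasDerivAt_id z).const_mul Complex.I).div_const 2).const_sub (5 / 4)
    simpa using h
  have hG2 := hG1.comp z hlin
  have hlin2 : HasDerivAt (fun z : ℂ => -1 / 4 + Complex.I * z / 2) (Complex.I / 2) z := by
    have h := (((hasDerivAt_id z).const_mul Complex.I).div_const 2).const_add (-1 / 4)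
    simpa using h
  have hP := hlin2.const_cpow (c := (Real.pi : ℂ)) (Or.inl e3_pi)
  have hlin3 : HasDerivAt (fun z : ℂ => -1 / 2 - Complex.I * z) (-Complex.I) z := by
    have h := ((hasDerivAt_id z).const_mul Complex.I).const_sub (-1 / 2)
    simpa using h
  have hM := (hP.mul hG2).mul hlin3
  have hW := (hasDerivAt_pow 2 z).mul hM
  refine hW.congr_deriv ?_
  simp only [Pi.mul_apply, Function.comp_apply]
  unfold WW MM LL
  rw [← Complex.ofReal_log Real.pi_pos.le]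
  generalize (Real.pi : ℂ) ^ (-1 / 4 + Complex.I * z / 2) = P
  generalize Complex.digamma (5 / 4 - Complex.I * z / 2) = d
  generalize Complex.Gamma (5 / 4 - Complex.I * z / 2) = g
  generalize ((Real.log Real.pi : ℝ) : ℂ) = L
  generalize (-1 / 2 - Complex.I * z : ℂ) = F at hF ⊢
  norm_num
  field_simp
  ring

theorem e3_inv (z : ℂ) (h1 : 1 ≤ ‖z‖) : ‖Complex.I / (-1 / 2 - Complex.I * z)‖ ≤ 2 := by
  have h := e3_fac z h1
  rw [norm_div, Complex.norm_I, div_le_iff₀ (by linarith)]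
  linarith

theorem e3_two (z : ℂ) (h1 : 1 ≤ ‖z‖) : ‖2 / z‖ ≤ 2 := by
  rw [norm_div, div_le_iff₀ (by linarith)]
  have : ‖(2 : ℂ)‖ = 2 := by simp
  rw [this]
  linarith

theorem e3_parts (w : ℂ) : (Complex.I / 2 * w).re = -(w.im) / 2 ∧
    (Complex.I / 2 * w).im = w.re / 2 := by
  have e : Complex.I / 2 * w = Complex.I * w * ((1 / 2 : ℝ) : ℂ) := by
    push_cast
    ring
  rw [e, Complex.re_mul_ofReal, Complex.im_mul_ofReal, Complex.mul_re, Complex.mul_im]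
  simp
  constructor <;> ring

theorem LL_re : ∃ C : ℝ, 0 ≤ C ∧ ∀ z : ℂ, 0 ≤ z.im → 1 ≤ ‖z‖ → |(LL z).re| ≤ C := by
  obtain ⟨C, hC, h⟩ := dig_im
  refine ⟨4 + C / 2, by positivity, fun z hz h1 => ?_⟩
  have h2 := h _ (e3_re hz)
  have h3 := (Complex.abs_re_le_norm _).trans (e3_two z h1)
  have h4 := (Complex.abs_re_le_norm _).trans (e3_inv z h1)
  have h5 := (e3_parts ((Real.log Real.pi : ℝ) : ℂ)).1
  have h6 := (e3_parts (Complex.digamma (5 / 4 - Complex.I * z / 2))).1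
  rw [Complex.ofReal_im] at h5
  unfold LL
  rw [Complex.sub_re, Complex.sub_re, Complex.add_re, h5, h6]
  rw [abs_le] at h2 h3 h4 ⊢
  constructor
  · linarith [h2.1, h2.2, h3.1, h3.2, h4.1, h4.2]
  · linarith [h2.1, h2.2, h3.1, h3.2, h4.1, h4.2]

theorem LL_im (A : ℝ) : ∃ R : ℝ, ∀ z : ℂ, 0 ≤ z.im → R ≤ ‖z‖ → (LL z).im ≤ -A := by
  obtain ⟨ρ, h⟩ := dig_re (2 * A + Real.log Real.pi + 8)
  refine ⟨max (2 * ρ + 5 / 2) 1, fun z hz hR => ?_⟩
  have h1 : 1 ≤ ‖z‖ := (le_max_right _ _).trans hR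
  have hρ : 2 * ρ + 5 / 2 ≤ ‖z‖ := (le_max_left _ _).trans hR
  have hn : ρ ≤ ‖(5 / 4 - Complex.I * z / 2 : ℂ)‖ := by
    have e : Complex.I * z / 2 = -(5 / 4 - Complex.I * z / 2 : ℂ) + (5 / 4 : ℂ) := by ring
    have e2 : ‖Complex.I * z / 2‖ = ‖z‖ / 2 := by
      rw [norm_div, norm_mul, Complex.norm_I, one_mul]
      simp
    have e3 : ‖(5 / 4 : ℂ)‖ = 5 / 4 := by
      have : (5 / 4 : ℂ) = (((5 / 4 : ℝ)) : ℂ) := by push_cast; ring
      rw [this, Complex.norm_real]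
      norm_num
    have h3 : ‖z‖ / 2 ≤ ‖(5 / 4 - Complex.I * z / 2 : ℂ)‖ + 5 / 4 := by
      calc ‖z‖ / 2 = ‖-(5 / 4 - Complex.I * z / 2 : ℂ) + (5 / 4 : ℂ)‖ := by rw [← e, e2]
        _ ≤ ‖-(5 / 4 - Complex.I * z / 2 : ℂ)‖ + ‖(5 / 4 : ℂ)‖ := norm_add_le _ _
        _ = _ := by rw [norm_neg, e3]
    linarith
  have h2 := h _ (e3_re hz) hn
  have h3 := (Complex.abs_im_le_norm _).trans (e3_two z h1)
  have h4 := (Complex.abs_im_le_norm _).trans (e3_inv z h1)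
  have h5 := (e3_parts ((Real.log Real.pi : ℝ) : ℂ)).2
  have h6 := (e3_parts (Complex.digamma (5 / 4 - Complex.I * z / 2))).2
  rw [Complex.ofReal_re] at h5
  unfold LL
  rw [Complex.sub_im, Complex.sub_im, Complex.add_im, h5, h6]
  rw [abs_le] at h3 h4
  linarith [h3.1, h3.2, h4.1, h4.2]

end Pool.Agent.XI
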