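import Pool.Agent.Lib_helper1.XI.Defs
set_option autoImplicit false

namespace Pool.Agent.XI

open MeasureTheory Set Filter Topology

theorem f1_norm_Gamma {s : ℂ} (hs : 0 < s.re) : ‖Complex.Gamma s‖ ≤ Real.Gamma s.re := by
  rw [Complex.Gamma_eq_integral hs, Real.Gamma_eq_integral hs, Complex.GammaIntegral]
  refine norm_integral_le_of_norm_le (Real.GammaIntegral_convergent hs) ?_
  rw [ae_restrict_iff' measurableSet_Ioi]
  refine ae_of_all _ fun x hx => ?_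
  have hx0 : (0 : ℝ) < x := hx
  rw [norm_mul, Complex.norm_real, Real.norm_eq_abs, Real.abs_exp,
    Complex.norm_cpow_eq_rpow_re_of_pos hx0]
  simp

theorem f1_rec {w : ℂ} (h0 : w ≠ 0) (h1 : w + 1 ≠ 0) (h2 : w + 2 ≠ 0) (h3 : w + 3 ≠ 0) :
    Complex.Gamma (w + 4) = (w + 3) * ((w + 2) * ((w + 1) * (w * Complex.Gamma w))) := by
  have e1 := Complex.Gamma_add_one w h0
  have e2 := Complex.Gamma_add_one (w + 1) h1
  have e3 := Complex.Gamma_add_one (w + 2) h2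
  have e4 := Complex.Gamma_add_one (w + 3) h3
  rw [← e1, show w + 4 = w + 3 + 1 by ring, e4, show w + 3 = w + 2 + 1 by ring, e3,
    show w + 2 = w + 1 + 1 by ring, e2]

theorem f1_Gamma_le {Y : ℝ} {w : ℂ} (h1 : 5 / 4 ≤ w.re) (h2 : w.re ≤ 5 / 4 + Y / 2) {b : ℝ} (hb : 0 < b)
    (h3 : b ≤ |w.im|) : ‖Complex.Gamma w‖ ≤ Real.Gamma (21 / 4 + Y / 2) / b ^ 4 := by
  have hn : ∀ a : ℝ, b ≤ ‖w + (a : ℂ)‖ := fun a => by
    refine h3.trans ?_
    have := Complex.abs_im_le_norm (w + (a : ℂ))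
    simpa using this
  have hb0 : b ≤ ‖w‖ := by simpa using hn 0
  have hb1 : b ≤ ‖w + 1‖ := by simpa using hn 1
  have hb2 : b ≤ ‖w + 2‖ := by simpa using hn 2
  have hb3 : b ≤ ‖w + 3‖ := by simpa using hn 3
  have z0 : ∀ v : ℂ, b ≤ ‖v‖ → v ≠ 0 := by
    intro v hv h
    rw [h, norm_zero] at hv
    linarith
  have e := f1_rec (z0 _ hb0) (z0 _ hb1) (z0 _ hb2) (z0 _ hb3)
  have h4 : ‖Complex.Gamma (w + 4)‖ ≤ Real.Gamma (21 / 4 + Y / 2) := by
    have hre : (w + 4).re = w.re + 4 := by simp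
    refine (f1_norm_Gamma (by rw [hre]; linarith)).trans ?_
    rw [hre]
    refine Real.Gamma_strictMonoOn_Ici.monotoneOn ?_ ?_ (by linarith)
    · show (2 : ℝ) ≤ _
      linarith
    · show (2 : ℝ) ≤ _
      linarith
  rw [e, norm_mul, norm_mul, norm_mul, norm_mul] at h4
  rw [le_div_iff₀ (by positivity)]
  refine le_trans ?_ h4
  have g0 : 0 ≤ ‖Complex.Gamma w‖ := norm_nonneg _
  calc ‖Complex.Gamma w‖ * b ^ 4 = b * (b * (b * (b * ‖Complex.Gamma w‖))) := by ring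
    _ ≤ ‖w + 3‖ * (‖w + 2‖ * (‖w + 1‖ * (‖w‖ * ‖Complex.Gamma w‖))) := by gcongr

/-- in a strip the Gamma part tends to zero -/
theorem WW_strip (Y : ℝ) {ε : ℝ} (hε : 0 < ε) :
    ∃ R : ℝ, ∀ z : ℂ, 0 ≤ z.im → z.im ≤ Y → R ≤ ‖z‖ → ‖WW z‖ ≤ ε := by
  rcases lt_or_ge Y 0 with hY | hY
  · exact ⟨0, fun z h1 h2 => by linarith⟩
  set G : ℝ := Real.Gamma (21 / 4 + Y / 2) with hG
  have hG0 : 0 < G := Real.Gamma_pos_of_pos (by linarith)
  refine ⟨max 1 (max (4 * Y) (512 * G / ε)), fun z h1 h2 hR => ?_⟩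
  have hz1 : 1 ≤ ‖z‖ := (le_max_left _ _).trans hR
  have hz2 : 4 * Y ≤ ‖z‖ := ((le_max_left _ _).trans (le_max_right _ _)).trans hR
  have hz3 : 512 * G / ε ≤ ‖z‖ := ((le_max_right _ _).trans (le_max_right _ _)).trans hR
  set r : ℝ := ‖z‖ with hr
  have hre : r / 2 ≤ |z.re| := by
    have h3 := Complex.norm_le_abs_re_add_abs_im z
    rw [abs_of_nonneg h1] at h3
    linarith
  have wre : (5 / 4 - Complex.I * z / 2 : ℂ).re = 5 / 4 + z.im / 2 := by
    have : (5 / 4 - Complex.I * z / 2 : ℂ) = ((5 / 4 : ℝ) : ℂ) - ((1 / 2 : ℝ) : ℂ) * (Complex.I * z) := by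
      push_cast; ring
    rw [this, Complex.sub_re, Complex.re_ofReal_mul, Complex.ofReal_re, Complex.I_mul_re]
    ring
  have wim : (5 / 4 - Complex.I * z / 2 : ℂ).im = - (z.re / 2) := by
    have : (5 / 4 - Complex.I * z / 2 : ℂ) = ((5 / 4 : ℝ) : ℂ) - ((1 / 2 : ℝ) : ℂ) * (Complex.I * z) := by
      push_cast; ring
    rw [this, Complex.sub_im, Complex.im_ofReal_mul, Complex.ofReal_im, Complex.I_mul_im]
    ring
  have hΓ : ‖Complex.Gamma (5 / 4 - Complex.I * z / 2)‖ ≤ G / (r / 4) ^ 4 := by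
    refine f1_Gamma_le (Y := Y) (by rw [wre]; linarith) (by rw [wre]; linarith) (by positivity) ?_
    rw [wim, abs_neg, abs_div, abs_two]
    linarith
  have hπ : ‖(Real.pi : ℂ) ^ (-1 / 4 + Complex.I * z / 2)‖ ≤ 1 := by
    rw [Complex.norm_cpow_eq_rpow_re_of_pos Real.pi_pos]
    have : (-1 / 4 + Complex.I * z / 2 : ℂ) = ((-1 / 4 : ℝ) : ℂ) + ((1 / 2 : ℝ) : ℂ) * (Complex.I * z) := by
      push_cast; ring
    rw [this, Complex.add_re, Complex.re_ofReal_mul, Complex.ofReal_re, Complex.I_mul_re]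
    refine Real.rpow_le_one_of_one_le_of_nonpos ?_ (by linarith)
    linarith [Real.pi_gt_three]
  have hl : ‖(-1 / 2 - Complex.I * z : ℂ)‖ ≤ 2 * r := by
    refine (norm_sub_le _ _).trans ?_
    rw [norm_mul, Complex.norm_I, one_mul]
    have : ‖(-1 / 2 : ℂ)‖ = 1 / 2 := by
      rw [norm_div, norm_neg, norm_one]
      simp
    rw [this]
    linarith
  unfold WW MM
  rw [norm_mul, norm_mul, norm_mul, norm_pow, ← hr]
  have hr0 : 0 < r := by linarith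
  calc r ^ 2 * (‖(Real.pi : ℂ) ^ (-1 / 4 + Complex.I * z / 2)‖ *
        ‖Complex.Gamma (5 / 4 - Complex.I * z / 2)‖ * ‖(-1 / 2 - Complex.I * z : ℂ)‖)
      ≤ r ^ 2 * (1 * (G / (r / 4) ^ 4) * (2 * r)) := by
        gcongr
    _ = 512 * G / r := by
        field_simp
        ring
    _ ≤ ε := by
        rw [div_le_iff₀ hr0]
        rw [div_le_iff₀ hε] at hz3
        linarith

end Pool.Agent.XI
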