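import Pool.Agent.Lib_helper1.XI.Defs
set_option autoImplicit false

namespace Pool.Agent.XI

open MeasureTheory Set Filter Topology

theorem ee_norm {n : ℕ} (hn : 1 ≤ n) (z : ℂ) : ‖ee n z‖ = (n : ℝ) ^ (-1 / 2 - z.im) := by
  unfold ee
  rw [Complex.norm_natCast_cpow_of_pos (by omega)]
  have : (-1 / 2 + Complex.I * z : ℂ) = ((-1 / 2 : ℝ) : ℂ) + Complex.I * z := by
    push_cast; ring
  rw [this, Complex.add_re, Complex.ofReal_re, Complex.I_mul_re]
  congr 1

theorem ee_deriv {n : ℕ} (hn : 1 ≤ n) (z : ℂ) :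
    HasDerivAt (ee n) (Complex.I * (Real.log n : ℝ) * ee n z) z := by
  have h1 : HasDerivAt (fun z : ℂ => (-1 / 2 + Complex.I * z : ℂ)) Complex.I z := by
    have h := ((hasDerivAt_id z).const_mul Complex.I).const_add (-1 / 2 : ℂ)
    simpa using h
  have hn0 : (n : ℂ) ≠ 0 := by
    have : n ≠ 0 := by omega
    exact_mod_cast this
  have h2 := h1.const_cpow (c := (n : ℂ)) (Or.inl hn0)
  have h3 : (n : ℂ) ^ (-1 / 2 + Complex.I * z) * Complex.log (n : ℂ) * Complex.I =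
      Complex.I * (Real.log n : ℝ) * ee n z := by
    unfold ee
    rw [Complex.natCast_log]
    ring
  rw [← h3]
  exact h2

theorem f2_le_one {n : ℕ} (hn : 1 ≤ n) {z : ℂ} (hz : 0 ≤ z.im) : ‖ee n z‖ ≤ 1 := by
  rw [ee_norm hn]
  exact Real.rpow_le_one_of_one_le_of_nonpos (by exact_mod_cast hn) (by linarith)

theorem f2_le {n : ℕ} (hn : 2 ≤ n) {z : ℂ} {Y : ℝ} (hY : 0 ≤ Y) (hz : Y ≤ z.im) :
    ‖ee n z‖ ≤ (2 : ℝ) ^ (-Y) := by
  rw [ee_norm (by omega)]
  have h2 : (2 : ℝ) ≤ n := by exact_mod_cast hn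
  calc (n : ℝ) ^ (-1 / 2 - z.im) ≤ (2 : ℝ) ^ (-1 / 2 - z.im) :=
        Real.rpow_le_rpow_of_nonpos (by norm_num) h2 (by linarith)
    _ ≤ (2 : ℝ) ^ (-Y) := Real.rpow_le_rpow_of_exponent_le (by norm_num) (by linarith)

theorem DD_bound (k : ℕ) {t : ℝ} (ht : t ∈ Icc (0 : ℝ) 1) {z : ℂ} (hz : 0 ≤ z.im) :
    ‖DD k t z‖ ≤ k + 1 := by
  unfold DD
  refine (norm_add_le _ _).trans ?_
  refine add_le_add ?_ ?_
  · refine (norm_sum_le _ _).trans ?_
    refine (Finset.sum_le_sum (g := fun _ => (1 : ℝ)) fun n hn => ?_).trans ?_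
    · exact f2_le_one (Finset.mem_Icc.1 hn).1 hz
    · simp
  · rw [norm_mul, Complex.norm_real, Real.norm_eq_abs, abs_of_nonneg ht.1]
    have h1 : ‖ee (k + 1) z‖ ≤ 1 := f2_le_one (by omega) hz
    calc t * ‖ee (k + 1) z‖ ≤ 1 * 1 := by
          refine mul_le_mul ht.2 h1 (norm_nonneg _) (by norm_num)
      _ = 1 := one_mul 1

theorem DD_high {k : ℕ} (hk : 1 ≤ k) {ε : ℝ} (hε : 0 < ε) : ∃ Y : ℝ, 0 < Y ∧
    ∀ t ∈ Icc (0 : ℝ) 1, ∀ z : ℂ, Y ≤ z.im → ‖DD k t z - 1‖ ≤ ε ∧ ‖ee (k + 1) z‖ ≤ ε ∧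
      ∃ d : ℂ, HasDerivAt (DD k t) d z ∧ ‖d‖ ≤ ε := by
  have hk1 : (1 : ℝ) ≤ k := by exact_mod_cast hk
  set L : ℝ := Real.log ((k : ℝ) + 1) with hL
  have hL0 : 0 ≤ L := Real.log_nonneg (by linarith)
  set C : ℝ := ((k : ℝ) + 1) * (1 + L) with hC
  have hC0 : 0 < C := by positivity
  obtain ⟨m, hm⟩ := exists_pow_lt_of_lt_one (div_pos hε hC0) (by norm_num : (1 / 2 : ℝ) < 1)
  set Y : ℝ := (m : ℝ) + 1 with hY
  have hY0 : 0 < Y := by positivity
  set q : ℝ := (2 : ℝ) ^ (-Y) with hq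
  have hq0 : 0 < q := by positivity
  have hqC : C * q ≤ ε := by
    have h1 : q ≤ (1 / 2 : ℝ) ^ m := by
      rw [hq, hY, one_div, inv_pow, ← Real.rpow_natCast, ← Real.rpow_neg (by norm_num)]
      exact Real.rpow_le_rpow_of_exponent_le (by norm_num) (by linarith)
    have h2 : q < ε / C := h1.trans_lt hm
    rw [lt_div_iff₀ hC0] at h2
    linarith
  have hkq : ((k : ℝ) + 1) * q ≤ C * q := by
    refine mul_le_mul_of_nonneg_right ?_ hq0.le
    rw [hC]
    nlinarith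
  have hkLq : ((k : ℝ) + 1) * (L * q) ≤ C * q := by
    rw [hC]
    nlinarith [mul_pos (by linarith : (0 : ℝ) < (k : ℝ) + 1) hq0]
  refine ⟨Y, hY0, fun t ht z hz => ⟨?_, ?_, ?_⟩⟩
  · have e1 : DD k t z - 1 = ∑ n ∈ Finset.Icc 2 k, ee n z + (t : ℂ) * ee (k + 1) z := by
      unfold DD
      have h1 : Finset.Icc 1 k = insert 1 (Finset.Icc 2 k) := by
        ext a
        simp only [Finset.mem_Icc, Finset.mem_insert]
        omega
      rw [h1, Finset.sum_insert (by simp)]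
      have h2 : ee 1 z = 1 := by simp [ee]
      rw [h2]
      ring
    rw [e1]
    refine le_trans ?_ (hkq.trans hqC)
    refine (norm_add_le _ _).trans ?_
    have h3 : ‖∑ n ∈ Finset.Icc 2 k, ee n z‖ ≤ k * q := by
      refine (norm_sum_le _ _).trans ?_
      refine (Finset.sum_le_sum (g := fun _ => q) fun n hn => ?_).trans ?_
      · exact f2_le (Finset.mem_Icc.1 hn).1 hY0.le hz
      · rw [Finset.sum_const, Nat.card_Icc, nsmul_eq_mul]
        refine mul_le_mul_of_nonneg_right ?_ hq0.le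
        exact_mod_cast (by omega : k + 1 - 2 ≤ k)
    have h4 : ‖(t : ℂ) * ee (k + 1) z‖ ≤ q := by
      rw [norm_mul, Complex.norm_real, Real.norm_eq_abs, abs_of_nonneg ht.1]
      have h5 : ‖ee (k + 1) z‖ ≤ q := f2_le (by omega) hY0.le hz
      calc t * ‖ee (k + 1) z‖ ≤ 1 * q := mul_le_mul ht.2 h5 (norm_nonneg _) (by norm_num)
        _ = q := one_mul q
    linarith
  · refine (f2_le (by omega) hY0.le hz).trans ?_
    refine le_trans ?_ (hkq.trans hqC)
    nlinarith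
  · refine ⟨∑ n ∈ Finset.Icc 1 k, Complex.I * (Real.log n : ℝ) * ee n z +
      (t : ℂ) * (Complex.I * (Real.log ((k + 1 : ℕ) : ℝ) : ℝ) * ee (k + 1) z), ?_, ?_⟩
    · unfold DD
      refine HasDerivAt.add ?_ ?_
      · exact HasDerivAt.fun_sum fun n hn => ee_deriv (Finset.mem_Icc.1 hn).1 z
      · exact (ee_deriv (by omega) z).const_mul _
    · have hterm : ∀ n : ℕ, 1 ≤ n → n ≤ k + 1 → ‖Complex.I * (Real.log n : ℝ) * ee n z‖ ≤ L * q := by
        intro n h1 h2
        rw [norm_mul, norm_mul, Complex.norm_I, one_mul, Complex.norm_real, Real.norm_eq_abs,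
          abs_of_nonneg (Real.log_nonneg (by exact_mod_cast h1))]
        rcases Nat.lt_or_ge n 2 with h3 | h3
        · have : n = 1 := by omega
          rw [this, Nat.cast_one, Real.log_one, zero_mul]
          positivity
        · refine mul_le_mul ?_ (f2_le h3 hY0.le hz) (norm_nonneg _) hL0
          rw [hL]
          refine Real.log_le_log (by positivity) ?_
          exact_mod_cast h2
      refine le_trans ?_ (hkLq.trans hqC)
      refine (norm_add_le _ _).trans ?_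
      have h3 : ‖∑ n ∈ Finset.Icc 1 k, Complex.I * (Real.log n : ℝ) * ee n z‖ ≤ k * (L * q) := by
        refine (norm_sum_le _ _).trans ?_
        refine (Finset.sum_le_sum (g := fun _ => L * q) fun n hn => ?_).trans ?_
        · have := Finset.mem_Icc.1 hn
          exact hterm n this.1 (by omega)
        · simp
      have h4 : ‖(t : ℂ) * (Complex.I * (Real.log ((k + 1 : ℕ) : ℝ) : ℝ) * ee (k + 1) z)‖ ≤ L * q := by
        rw [norm_mul, Complex.norm_real, Real.norm_eq_abs, abs_of_nonneg ht.1]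
        have h5 := hterm (k + 1) (by omega) le_rfl
        calc t * ‖Complex.I * (Real.log ((k + 1 : ℕ) : ℝ) : ℝ) * ee (k + 1) z‖ ≤ 1 * (L * q) :=
              mul_le_mul ht.2 h5 (norm_nonneg _) (by norm_num)
          _ = L * q := one_mul _
      linarith

end Pool.Agent.XI
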