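import Pool.Agent.Lib_helper1.XI.Defs
import Pool.Agent.Lib_helper1.XI.P.B2
import Pool.Agent.Lib_helper1.XI.P.C2
set_option autoImplicit false

namespace Pool.Agent.XI

open MeasureTheory Set Filter Topology

theorem f3_an {n : ℕ} (hn : 1 ≤ n) : 0 < an n := by
  unfold an
  have : (0 : ℝ) < n := by exact_mod_cast hn
  positivity

theorem Phi_eq {n : ℕ} (hn : 1 ≤ n) {z : ℂ} (hz : 0 ≤ z.im) (hz0 : z ≠ 0) :
    z ^ 2 * PhiN n z = ee n z * WW z + (aa (an n) : ℂ) - 2 * KK (an n) z := by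
  rw [phi_dec hn hz, mul_add, BB_eq (f3_an hn) hz hz0, WW]
  ring

theorem FF_eq {k : ℕ} (t : ℝ) {z : ℂ} (hz : 0 ≤ z.im) (hz0 : z ≠ 0) :
    z ^ 2 * FF k t z = DD k t z * WW z + (cc k t : ℂ) - 2 * kap k t z := by
  have h1 : z ^ 2 * FF k t z =
      ∑ n ∈ Finset.Icc 1 k, z ^ 2 * PhiN n z + (t : ℂ) * (z ^ 2 * PhiN (k + 1) z) := by
    unfold FF XiN
    rw [mul_add, Finset.mul_sum]
    ring
  have h2 : ∑ n ∈ Finset.Icc 1 k, z ^ 2 * PhiN n z =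
      ∑ n ∈ Finset.Icc 1 k, (ee n z * WW z + (aa (an n) : ℂ) - 2 * KK (an n) z) :=
    Finset.sum_congr rfl fun n hn => Phi_eq (Finset.mem_Icc.1 hn).1 hz hz0
  rw [h1, h2, Phi_eq (Nat.le_add_left 1 k) hz hz0]
  unfold DD cc kap
  push_cast
  rw [Finset.sum_sub_distrib, Finset.sum_add_distrib, ← Finset.sum_mul, ← Finset.mul_sum]
  ring

theorem kap_bound (k : ℕ) : ∃ C : ℝ, 0 ≤ C ∧ ∀ t ∈ Icc (0 : ℝ) 1,
    (∀ z : ℂ, 0 ≤ z.im → z ≠ 0 → ‖kap k t z‖ ≤ C / ‖z‖ ∧ ‖KK (an (k + 1)) z‖ ≤ C / ‖z‖) ∧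
    ∀ z : ℂ, 0 < z.im → ∃ d : ℂ, HasDerivAt (kap k t) d z ∧ ‖d‖ ≤ C := by
  have h : ∀ n : ℕ, ∃ C : ℝ, 1 ≤ n → (0 ≤ C ∧
      (∀ z : ℂ, 0 ≤ z.im → z ≠ 0 → ‖KK (an n) z‖ ≤ C / ‖z‖) ∧
      ∀ z : ℂ, 0 < z.im → ∃ d : ℂ, HasDerivAt (KK (an n)) d z ∧ ‖d‖ ≤ C) := by
    intro n
    by_cases hn : 1 ≤ n
    · obtain ⟨C, hC⟩ := KK_bound (f3_an hn)
      exact ⟨C, fun _ => hC⟩
    · exact ⟨0, fun h => absurd h hn⟩
  choose C hC using h
  have hk := hC (k + 1) (Nat.le_add_left 1 k)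
  have hs0 : 0 ≤ ∑ n ∈ Finset.Icc 1 k, C n :=
    Finset.sum_nonneg fun n hn => (hC n (Finset.mem_Icc.1 hn).1).1
  refine ⟨∑ n ∈ Finset.Icc 1 k, C n + C (k + 1), add_nonneg hs0 hk.1, fun t ht => ⟨?_, ?_⟩⟩
  · intro z hz hz0
    have hzn : 0 < ‖z‖ := norm_pos_iff.2 hz0
    constructor
    · unfold kap
      refine (norm_add_le _ _).trans ?_
      rw [add_div, Finset.sum_div]
      refine add_le_add ?_ ?_
      · refine (norm_sum_le _ _).trans (Finset.sum_le_sum fun n hn => ?_)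
        exact (hC n (Finset.mem_Icc.1 hn).1).2.1 z hz hz0
      · rw [norm_mul, Complex.norm_real, Real.norm_of_nonneg ht.1]
        calc t * ‖KK (an (k + 1)) z‖ ≤ 1 * ‖KK (an (k + 1)) z‖ :=
              mul_le_mul_of_nonneg_right ht.2 (norm_nonneg _)
          _ ≤ _ := by
              rw [one_mul]
              exact hk.2.1 z hz hz0
    · refine (hk.2.1 z hz hz0).trans ?_
      exact div_le_div_of_nonneg_right (by linarith) hzn.le
  · intro z hz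
    have hd : ∀ n : ℕ, ∃ d : ℂ, 1 ≤ n → (HasDerivAt (KK (an n)) d z ∧ ‖d‖ ≤ C n) := by
      intro n
      by_cases hn : 1 ≤ n
      · obtain ⟨d, hd⟩ := (hC n hn).2.2 z hz
        exact ⟨d, fun _ => hd⟩
      · exact ⟨0, fun h => absurd h hn⟩
    choose d hd using hd
    have hk' := hd (k + 1) (Nat.le_add_left 1 k)
    refine ⟨∑ n ∈ Finset.Icc 1 k, d n + (t : ℂ) * d (k + 1), ?_, ?_⟩
    · have h1 : HasDerivAt (fun z => ∑ n ∈ Finset.Icc 1 k, KK (an n) z)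
          (∑ n ∈ Finset.Icc 1 k, d n) z :=
        HasDerivAt.fun_sum fun n hn => (hd n (Finset.mem_Icc.1 hn).1).1
      exact h1.add (hk'.1.const_mul (t : ℂ))
    · refine (norm_add_le _ _).trans (add_le_add ?_ ?_)
      · exact (norm_sum_le _ _).trans (Finset.sum_le_sum fun n hn =>
          (hd n (Finset.mem_Icc.1 hn).1).2)
      · rw [norm_mul, Complex.norm_real, Real.norm_of_nonneg ht.1]
        calc t * ‖d (k + 1)‖ ≤ 1 * ‖d (k + 1)‖ :=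
              mul_le_mul_of_nonneg_right ht.2 (norm_nonneg _)
          _ ≤ _ := by
              rw [one_mul]
              exact hk'.2

end Pool.Agent.XI
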