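import Pool.Agent.Lib_helper1.XI.Defs
import Pool.Agent.Lib_helper1.XI.P.D2
import Pool.Agent.Lib_helper1.XI.P.F1
import Pool.Agent.Lib_helper1.XI.P.F2
import Pool.Agent.Lib_helper1.XI.P.F3
set_option autoImplicit false

namespace Pool.Agent.XI

open MeasureTheory Set Filter Topology

/-- far zeros are high -/
theorem location {k : ℕ} (hk : 1 ≤ k) (Y : ℝ) : ∃ R : ℝ, ∀ t ∈ Icc (0 : ℝ) 1, ∀ z : ℂ,
    0 ≤ z.im → z.im ≤ Y → R ≤ ‖z‖ → FF k t z ≠ 0 := by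
  obtain ⟨δ, hδ, hcc⟩ := cc_neg hk
  obtain ⟨C, hC, hkap⟩ := kap_bound k
  have hk1 : (0 : ℝ) < (k : ℝ) + 1 := by positivity
  obtain ⟨R1, hR1⟩ := WW_strip Y (ε := δ / (4 * ((k : ℝ) + 1))) (by positivity)
  refine ⟨max R1 (8 * C / δ + 1), fun t ht z hz0 hzY hzR h0 => ?_⟩
  have hz1 : 8 * C / δ + 1 ≤ ‖z‖ := (le_max_right _ _).trans hzR
  have hq : 0 ≤ 8 * C / δ := by positivity
  have hzpos : 0 < ‖z‖ := by linarith
  have hzne : z ≠ 0 := norm_pos_iff.1 hzpos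
  have hW := hR1 z hz0 hzY ((le_max_left _ _).trans hzR)
  have hD := DD_bound k ht hz0
  have hK := ((hkap t ht).1 z hz0 hzne).1
  have hE := FF_eq (k := k) t hz0 hzne
  rw [h0, mul_zero] at hE
  have h1 : (cc k t : ℂ) = 2 * kap k t z - DD k t z * WW z := by linear_combination -hE
  have h2 : ‖(cc k t : ℂ)‖ ≤ 2 * (C / ‖z‖) + ((k : ℝ) + 1) * (δ / (4 * ((k : ℝ) + 1))) := by
    rw [h1]
    refine (norm_sub_le _ _).trans (add_le_add ?_ ?_)
    · rw [norm_mul]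
      have h3 : ‖(2 : ℂ)‖ = 2 := by norm_num
      rw [h3]
      exact mul_le_mul_of_nonneg_left hK (by norm_num)
    · rw [norm_mul]
      exact mul_le_mul hD hW (norm_nonneg _) hk1.le
  have h3 : ((k : ℝ) + 1) * (δ / (4 * ((k : ℝ) + 1))) = δ / 4 := by
    field_simp
  have h4 : 2 * (C / ‖z‖) ≤ δ / 4 := by
    have h5 : 8 * C ≤ ‖z‖ * δ := by
      have h6 : 8 * C / δ ≤ ‖z‖ := by linarith
      rwa [div_le_iff₀ hδ] at h6
    rw [mul_div_assoc', div_le_iff₀ hzpos]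
    linarith
  have h5 : ‖(cc k t : ℂ)‖ = |cc k t| := by
    rw [Complex.norm_real, Real.norm_eq_abs]
  have h6 : δ ≤ |cc k t| := by
    have h7 := hcc t ht
    rw [abs_of_neg (by linarith)]
    linarith
  rw [h5, h3] at h2
  linarith

end Pool.Agent.XI
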