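import Pool.Agent.Lib_helper1.XI.Defs
import Pool.Agent.Lib_helper1.XI.P.D2
import Pool.Agent.Lib_helper1.XI.P.E3
import Pool.Agent.Lib_helper1.XI.P.F2
import Pool.Agent.Lib_helper1.XI.P.F3
import Pool.Agent.Lib_helper1.XI.P.F4

set_option autoImplicit false

namespace Pool.Agent.XI

open MeasureTheory Set Filter Topology

/-- a function `g` with `z² g = R` in the upper half plane -/
theorem f5_diff {g R : ℂ → ℂ} (h : ∀ w : ℂ, 0 < w.im → w ^ 2 * g w = R w) {z R' : ℂ}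
    (hz : 0 < z.im) (hR : HasDerivAt R R' z) :
    ∃ g' : ℂ, HasDerivAt g g' z ∧ z ^ 2 * g' + 2 * z * g z = R' := by
  have hz0 : z ≠ 0 := by
    intro h0
    rw [h0, Complex.zero_im] at hz
    exact lt_irrefl _ hz
  have hopen : IsOpen {w : ℂ | 0 < w.im} := isOpen_lt continuous_const Complex.continuous_im
  have hmem : {w : ℂ | 0 < w.im} ∈ 𝓝 z := hopen.mem_nhds hz
  have hsq : HasDerivAt (fun w : ℂ => w ^ 2) (2 * z) z := by
    have h1 := hasDerivAt_pow 2 z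
    simpa using h1
  have h1 : HasDerivAt (fun w => R w / w ^ 2) ((R' * z ^ 2 - R z * (2 * z)) / (z ^ 2) ^ 2) z :=
    hR.div hsq (pow_ne_zero 2 hz0)
  have h2 : g =ᶠ[𝓝 z] fun w => R w / w ^ 2 := by
    filter_upwards [hmem] with w hw
    have hw0 : w ≠ 0 := by
      intro h0
      rw [h0, Complex.zero_im] at hw
      exact lt_irrefl _ hw
    rw [← h w hw, mul_comm, mul_div_assoc, div_self (pow_ne_zero 2 hw0), mul_one]
  refine ⟨_, h1.congr_of_eventuallyEq h2, ?_⟩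
  rw [← h z hz]
  field_simp
  ring

/-- the algebraic part of the estimate -/
theorem f5_alg {s A E0 CL : ℝ} {Q L κ E N : ℂ} (hA : 0 < A) (hs : 0 < s)
    (hQ : ‖Q - A‖ ≤ A / 10) (hκ : ‖κ‖ ≤ s / 10) (hE : ‖E‖ ≤ E0) (hLr : |L.re| ≤ CL)
    (hLi : L.im ≤ 0) (hN : N = (s + κ) * L + E)
    (hfin : s * (3 / 4 * L.im + CL / 4) + 11 / 10 * E0 < 0) :
    Q ≠ 0 ∧ (N / Q).im < 0 := by
  have hCL : 0 ≤ CL := (abs_nonneg _).trans hLr
  have hE0 : 0 ≤ E0 := (norm_nonneg _).trans hE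
  have hQn : ‖Q‖ ≤ 11 / 10 * A := by
    have h1 : Q = (Q - A) + (A : ℂ) := by ring
    rw [h1]
    refine (norm_add_le _ _).trans ?_
    rw [Complex.norm_real, Real.norm_eq_abs, abs_of_pos hA]
    linarith
  have hQ0 : Q ≠ 0 := by
    intro h0
    rw [h0, zero_sub, norm_neg, Complex.norm_real, Real.norm_eq_abs, abs_of_pos hA] at hQ
    linarith
  refine ⟨hQ0, ?_⟩
  have hns : 0 < Complex.normSq Q := Complex.normSq_pos.2 hQ0
  have h1 : (N / Q).im = (N * (starRingEnd ℂ) Q).im / Complex.normSq Q := by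
    rw [Complex.div_im, Complex.mul_im, Complex.conj_re, Complex.conj_im]
    ring
  rw [h1]
  refine div_neg_of_neg_of_pos ?_ hns
  have hL : ‖L‖ ≤ CL - L.im := by
    refine (Complex.norm_le_abs_re_add_abs_im L).trans ?_
    rw [abs_of_nonpos hLi]
    linarith
  have h2 : N * (starRingEnd ℂ) Q = ((s * A : ℝ) : ℂ) * L +
      ((κ * (starRingEnd ℂ) Q + s * (starRingEnd ℂ) (Q - A)) * L + E * (starRingEnd ℂ) Q) := by
    rw [hN, map_sub, Complex.conj_ofReal]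
    push_cast
    ring
  have hconj : ‖(starRingEnd ℂ) Q‖ = ‖Q‖ := Complex.norm_conj Q
  have hconj2 : ‖(starRingEnd ℂ) (Q - A)‖ = ‖Q - A‖ := Complex.norm_conj _
  have h3 : ‖(κ * (starRingEnd ℂ) Q + s * (starRingEnd ℂ) (Q - A)) * L‖ ≤
      s * A / 4 * (CL - L.im) := by
    rw [norm_mul]
    have h4 : ‖κ * (starRingEnd ℂ) Q + s * (starRingEnd ℂ) (Q - A)‖ ≤ s * A / 4 := by
      refine (norm_add_le _ _).trans ?_
      rw [norm_mul, norm_mul, hconj, hconj2, Complex.norm_real, Real.norm_eq_abs, abs_of_pos hs]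
      have h5 : ‖κ‖ * ‖Q‖ ≤ s / 10 * (11 / 10 * A) :=
        mul_le_mul hκ hQn (norm_nonneg _) (by linarith)
      have h6 : s * ‖Q - A‖ ≤ s * (A / 10) := mul_le_mul_of_nonneg_left hQ hs.le
      nlinarith [mul_pos hs hA]
    exact mul_le_mul h4 hL (norm_nonneg _) (by positivity)
  have h7 : ‖E * (starRingEnd ℂ) Q‖ ≤ E0 * (11 / 10 * A) := by
    rw [norm_mul, hconj]
    exact mul_le_mul hE hQn (norm_nonneg _) hE0
  have h8 : ((κ * (starRingEnd ℂ) Q + s * (starRingEnd ℂ) (Q - A)) * L +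
      E * (starRingEnd ℂ) Q).im ≤ s * A / 4 * (CL - L.im) + E0 * (11 / 10 * A) := by
    refine (Complex.im_le_norm _).trans ((norm_add_le _ _).trans ?_)
    linarith
  rw [h2, Complex.add_im, Complex.im_ofReal_mul]
  have h9 : s * A * L.im + (s * A / 4 * (CL - L.im) + E0 * (11 / 10 * A)) =
      A * (s * (3 / 4 * L.im + CL / 4) + 11 / 10 * E0) := by ring
  have h10 : A * (s * (3 / 4 * L.im + CL / 4) + 11 / 10 * E0) < 0 := mul_neg_of_pos_of_neg hA hfin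
  linarith

theorem f5_an {n : ℕ} (hn : 1 ≤ n) : 0 < an n := by
  unfold an
  have h1 : (0 : ℝ) < n := by exact_mod_cast hn
  positivity

/-- the core estimate: the sign of the imaginary part of the velocity -/
theorem core {k : ℕ} (hk : 1 ≤ k) : ∃ R : ℝ, 0 < R ∧ ∀ t ∈ Icc (0 : ℝ) 1, ∀ z : ℂ, 0 ≤ z.im →
    R < ‖z‖ → FF k t z = 0 → 0 < z.im ∧ PhiN (k + 1) z ≠ 0 ∧
      ∃ x' p' : ℂ, HasDerivAt (XiN k) x' z ∧ HasDerivAt (PhiN (k + 1)) p' z ∧
        ((x' + t * p') / PhiN (k + 1) z).im < 0 := by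
  obtain ⟨δ, hδ, hcc⟩ := cc_neg hk
  obtain ⟨A, hAdef⟩ : ∃ A : ℝ, A = aa (an (k + 1)) := ⟨_, rfl⟩
  have hA : 0 < A := by
    rw [hAdef]
    exact aa_pos (n := k + 1) (Nat.succ_le_succ hk)
  obtain ⟨C, hC0, hC⟩ := kap_bound k
  obtain ⟨CL, hCL0, hCL⟩ := LL_re
  obtain ⟨B, hBdef⟩ : ∃ B : ℝ, B = |∑ n ∈ Finset.Icc 1 k, aa (an n)| + A + 1 := ⟨_, rfl⟩
  have hB : 0 < B := by
    rw [hBdef]
    have h1 := abs_nonneg (∑ n ∈ Finset.Icc 1 k, aa (an n))
    linarith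
  obtain ⟨ε, hεdef⟩ : ∃ ε : ℝ, ε = min (1 / 2) (A / (40 * B)) := ⟨_, rfl⟩
  have hε : 0 < ε := by
    rw [hεdef]
    exact lt_min (by norm_num) (by positivity)
  obtain ⟨Y, hY, hhigh⟩ := DD_high hk hε
  obtain ⟨R1, hR1⟩ := location hk Y
  obtain ⟨E0, hE0def⟩ : ∃ E0 : ℝ, E0 = A / 20 + 2 * C := ⟨_, rfl⟩
  have hE0 : 0 ≤ E0 := by
    rw [hE0def]
    positivity
  obtain ⟨R2, hR2⟩ := LL_im (4 / 3 * (CL / 4 + (11 / 10 * E0 + 1) / δ))
  obtain ⟨η, hηdef⟩ : ∃ η : ℝ, η = min 1 (min (A / 20) (δ / 10)) := ⟨_, rfl⟩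
  have hη : 0 < η := by
    rw [hηdef]
    exact lt_min one_pos (lt_min (by positivity) (by positivity))
  have hη1 : η ≤ 1 := by
    rw [hηdef]
    exact min_le_left _ _
  have hηA : η ≤ A / 20 := by
    rw [hηdef]
    exact (min_le_right _ _).trans (min_le_left _ _)
  have hηδ : η ≤ δ / 10 := by
    rw [hηdef]
    exact (min_le_right _ _).trans (min_le_right _ _)
  have hε2 : ε ≤ 1 / 2 := by
    rw [hεdef]
    exact min_le_left _ _
  have hεA1 : ε ≤ A / (40 * B) := by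
    rw [hεdef]
    exact min_le_right _ _
  refine ⟨max 1 (max R1 (max R2 (2 * C / η))), lt_of_lt_of_le one_pos (le_max_left _ _), ?_⟩
  intro t ht z hz hzR h0
  have hr1 : 1 < ‖z‖ := lt_of_le_of_lt (le_max_left _ _) hzR
  have hrR1 : R1 < ‖z‖ :=
    lt_of_le_of_lt ((le_max_left _ _).trans (le_max_right _ _)) hzR
  have hrR2 : R2 < ‖z‖ := lt_of_le_of_lt
    ((le_max_left _ _).trans ((le_max_right _ _).trans (le_max_right _ _))) hzR
  have hrη : 2 * C / η < ‖z‖ := lt_of_le_of_lt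
    ((le_max_right _ _).trans ((le_max_right _ _).trans (le_max_right _ _))) hzR
  have hr0 : 0 < ‖z‖ := lt_trans one_pos hr1
  have hz0 : z ≠ 0 := norm_pos_iff.1 hr0
  have hy : Y < z.im := by
    by_contra hcon
    exact hR1 t ht z hz (not_lt.1 hcon) hrR1.le h0
  have hzp : 0 < z.im := hY.trans hy
  have hCη : 2 * (C / ‖z‖) ≤ η := by
    rw [div_lt_iff₀ hη] at hrη
    rw [← mul_div_assoc, div_le_iff₀ hr0]
    linarith
  obtain ⟨hD1, hee, D', hD', hD'n⟩ := hhigh t ht z hy.le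
  obtain ⟨_, _, D0, hD0, _⟩ := hhigh 0 ⟨le_rfl, zero_le_one⟩ z hy.le
  have hκ := (hC t ht).1 z hz hz0
  obtain ⟨K', hK', hK'n⟩ := (hC t ht).2 z hzp
  obtain ⟨K0, hK0, _⟩ := (hC 0 ⟨le_rfl, zero_le_one⟩).2 z hzp
  have hWd := WW_deriv hz hr1.le
  -- the zero equation
  have heq : DD k t z * WW z = ((-cc k t : ℝ) : ℂ) + 2 * kap k t z := by
    have h1 := FF_eq (k := k) t hz hz0
    rw [h0, mul_zero] at h1
    push_cast
    linear_combination -h1
  obtain ⟨s, hsdef⟩ : ∃ s : ℝ, s = -cc k t := ⟨_, rfl⟩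
  have hs : δ ≤ s := by
    have := hcc t ht
    rw [hsdef]
    linarith
  have hs0 : 0 < s := hδ.trans_le hs
  have hκ2 : ‖2 * kap k t z‖ ≤ η := by
    rw [norm_mul, Complex.norm_ofNat]
    exact (mul_le_mul_of_nonneg_left hκ.1 (by norm_num)).trans hCη
  have hsB : s ≤ B - 1 := by
    have h1 : |cc k t| ≤ |∑ n ∈ Finset.Icc 1 k, aa (an n)| + A := by
      unfold cc
      refine (abs_add_le _ _).trans (add_le_add le_rfl ?_)
      rw [abs_mul, abs_of_nonneg ht.1, ← hAdef, abs_of_pos hA]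
      exact mul_le_of_le_one_left hA.le ht.2
    rw [hsdef, hBdef]
    linarith [neg_abs_le (cc k t)]
  have hDW : ‖DD k t z * WW z‖ ≤ B := by
    rw [heq, ← hsdef]
    refine (norm_add_le _ _).trans ?_
    rw [Complex.norm_real, Real.norm_eq_abs, abs_of_pos hs0]
    linarith
  have hDn : 1 / 2 ≤ ‖DD k t z‖ := by
    have h1 : (1 : ℂ) = DD k t z - (DD k t z - 1) := by ring
    have h2 : ‖(1 : ℂ)‖ ≤ ‖DD k t z‖ + ‖DD k t z - 1‖ := by
      conv_lhs => rw [h1]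
      exact norm_sub_le _ _
    rw [norm_one] at h2
    linarith
  have hWn : ‖WW z‖ ≤ 2 * B := by
    rw [norm_mul] at hDW
    nlinarith [norm_nonneg (WW z)]
  have hεA : ε * (2 * B) ≤ A / 20 := by
    have h1 := hεA1
    have h2 : ε * (2 * B) ≤ A / (40 * B) * (2 * B) := mul_le_mul_of_nonneg_right h1 (by positivity)
    have h3 : A / (40 * B) * (2 * B) = A / 20 := by
      field_simp
      ring
    linarith
  -- derivatives
  have hRt : HasDerivAt (fun w => DD k t w * WW w + (cc k t : ℂ) - 2 * kap k t w)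
      (D' * WW z + DD k t z * (WW z * LL z) - 2 * K') z :=
    ((hD'.mul hWd).add_const _).sub (hK'.const_mul 2)
  have hR0 : HasDerivAt (fun w => DD k 0 w * WW w + (cc k 0 : ℂ) - 2 * kap k 0 w)
      (D0 * WW z + DD k 0 z * (WW z * LL z) - 2 * K0) z :=
    ((hD0.mul hWd).add_const _).sub (hK0.const_mul 2)
  have hne : ∀ w : ℂ, 0 < w.im → w ≠ 0 := by
    intro w hw h1
    rw [h1, Complex.zero_im] at hw
    exact lt_irrefl _ hw
  obtain ⟨x', hx', _⟩ := f5_diff (g := XiN k) (fun w hw => by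
    have h1 := FF_eq (k := k) 0 hw.le (hne w hw)
    unfold FF at h1
    rw [Complex.ofReal_zero, zero_mul, add_zero] at h1
    exact h1) hzp hR0
  obtain ⟨_, _, hKd⟩ := KK_bound (f5_an (show 1 ≤ k + 1 by omega))
  obtain ⟨KP, hKP, _⟩ := hKd.2 z hzp
  have hRP : HasDerivAt (fun w => ee (k + 1) w * WW w + (aa (an (k + 1)) : ℂ) -
      2 * KK (an (k + 1)) w)
      (Complex.I * (Real.log ((k + 1 : ℕ) : ℝ) : ℝ) * ee (k + 1) z * WW z +
        ee (k + 1) z * (WW z * LL z) - 2 * KP) z :=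
    (((ee_deriv (show 1 ≤ k + 1 by omega) z).mul hWd).add_const _).sub (hKP.const_mul 2)
  obtain ⟨p', hp', _⟩ := f5_diff (g := PhiN (k + 1)) (fun w hw =>
    Phi_eq (show 1 ≤ k + 1 by omega) hw.le (hne w hw)) hzp hRP
  obtain ⟨f', hf', hf'eq⟩ := f5_diff (g := FF k t) (fun w hw => FF_eq t hw.le (hne w hw)) hzp hRt
  have hf'2 : f' = x' + t * p' := hf'.unique (hx'.add (hp'.const_mul _))
  rw [h0, mul_zero, add_zero, hf'2] at hf'eq
  -- the estimate
  obtain ⟨Q, hQdef⟩ : ∃ Q : ℂ, Q = z ^ 2 * PhiN (k + 1) z := ⟨_, rfl⟩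
  have hQ : ‖Q - A‖ ≤ A / 10 := by
    have h1 : Q - A = ee (k + 1) z * WW z - 2 * KK (an (k + 1)) z := by
      rw [hQdef, Phi_eq (show 1 ≤ k + 1 by omega) hz hz0, ← hAdef]
      ring
    rw [h1]
    refine (norm_sub_le _ _).trans ?_
    rw [norm_mul, norm_mul, Complex.norm_ofNat]
    have h2 : ‖ee (k + 1) z‖ * ‖WW z‖ ≤ ε * (2 * B) :=
      mul_le_mul hee hWn (norm_nonneg _) hε.le
    have h3 : 2 * ‖KK (an (k + 1)) z‖ ≤ η :=
      (mul_le_mul_of_nonneg_left hκ.2 (by norm_num)).trans hCη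
    linarith
  have hκs : ‖2 * kap k t z‖ ≤ s / 10 := by
    linarith
  have hE : ‖D' * WW z - 2 * K'‖ ≤ E0 := by
    refine (norm_sub_le _ _).trans ?_
    rw [norm_mul, norm_mul, Complex.norm_ofNat]
    have h2 : ‖D'‖ * ‖WW z‖ ≤ ε * (2 * B) := mul_le_mul hD'n hWn (norm_nonneg _) hε.le
    rw [hE0def]
    linarith
  have hLim := hR2 z hz hrR2.le
  have hpos : 0 ≤ CL / 4 + (11 / 10 * E0 + 1) / δ := by positivity
  have hfin : s * (3 / 4 * (LL z).im + CL / 4) + 11 / 10 * E0 < 0 := by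
    have h1 : 3 / 4 * (LL z).im + CL / 4 ≤ -((11 / 10 * E0 + 1) / δ) := by linarith
    have h2 : s * (3 / 4 * (LL z).im + CL / 4) ≤ s * (-((11 / 10 * E0 + 1) / δ)) :=
      mul_le_mul_of_nonneg_left h1 hs0.le
    have h3 : 11 / 10 * E0 + 1 ≤ s * ((11 / 10 * E0 + 1) / δ) := by
      rw [← mul_div_assoc, le_div_iff₀ hδ, mul_comm]
      exact mul_le_mul_of_nonneg_right hs (by positivity)
    linarith
  have hN : z ^ 2 * (x' + t * p') = (s + 2 * kap k t z) * LL z + (D' * WW z - 2 * K') := by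
    rw [hf'eq, hsdef, ← heq]
    ring
  obtain ⟨hQ0, him⟩ := f5_alg hA hs0 hQ hκs hE (hCL z hz hr1.le) (by linarith) hN hfin
  have hP0 : PhiN (k + 1) z ≠ 0 := by
    intro h1
    rw [hQdef, h1, mul_zero] at hQ0
    exact hQ0 rfl
  refine ⟨hzp, hP0, x', p', hx', hp', ?_⟩
  have h1 : z ^ 2 * (x' + t * p') / Q = (x' + t * p') / PhiN (k + 1) z := by
    rw [hQdef, mul_div_mul_left _ _ (pow_ne_zero 2 hz0)]
  rwa [h1] at him

end Pool.Agent.XI
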